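import Pool.Agent.Work.MP_d5d48f_lc.ZF

/-!
Recursive definition of a set of natural numbers inside a model of ZF.
-/

universe u

namespace Pool.Agent.Work.MP_d5d48f_lc

open FirstOrder FirstOrder.Language

namespace IsZF

variable {M : Type u} [LSet.Structure M] (hM : IsZF M)

include hM

theorem exists_bits {w : M} (hw : IsOmega w) {T : M → M → Prop} (hT : Dfn2 T)
    (hdep : ∀ k : M, Mem k w → ∀ D D' : M, (∀ z : M, Mem z k → (Mem z D ↔ Mem z D')) →
      (T D k → T D' k)) :
    ∃ B : M, Sub B w ∧ ∀ k : M, Mem k w → (Mem k B ↔ T B k) := by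
  have hex : ∀ m : M, Mem m w → ∃ D : M, ∀ k : M, Mem k m → (Mem k D ↔ T D k) := by
    refine hM.omega_ind hw (P := fun m => ∃ D : M, ∀ k : M, Mem k m → (Mem k D ↔ T D k))
      (.ex (.all (.imp (.mem (.var _) (.var _)) (.iff (.mem (.var _) (.var _))
        (.app2 hT (.var _) (.var _)))))) ?_ ?_
    · intro e he
      exact ⟨e, fun k hk => absurd hk (he k)⟩
    · rintro m hm ⟨D, hD⟩ m' hm'
      obtain ⟨D', hD'⟩ := hM.sep (P := fun z => (Mem z m ∧ Mem z D) ∨ (z = m ∧ T D m))
        (.or (.and (.mem (.var _) (.const _)) (.mem (.var _) (.const _)))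
          (.and (.eq (.var _) (.const _)) (.app2 hT (.const _) (.const _)))) w
      have hag : ∀ z : M, Mem z m → (Mem z D ↔ Mem z D') := by
        intro z hz
        rw [hD']
        constructor
        · intro h
          exact ⟨(hM.nat_trans hw m hm z hz).1, Or.inl ⟨hz, h⟩⟩
        · rintro ⟨_, ⟨_, h⟩ | ⟨rfl, _⟩⟩
          · exact h
          · exact absurd hz (hM.irrefl _)
      refine ⟨D', fun k hk => ?_⟩
      rcases (hm' k).1 hk with hk | rfl
      · have hkm := hM.nat_trans hw m hm k hk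
        rw [← hag k hk, hD k hk]
        constructor
        · exact hdep k hkm.1 _ _ (fun z hz => hag z (hkm.2 z hz))
        · exact hdep k hkm.1 _ _ (fun z hz => (hag z (hkm.2 z hz)).symm)
      · rw [hD']
        constructor
        · rintro ⟨_, ⟨h, _⟩ | ⟨_, h⟩⟩
          · exact absurd h (hM.irrefl _)
          · exact hdep k hm _ _ hag h
        · intro h
          exact ⟨hm, Or.inr ⟨rfl, hdep k hm _ _ (fun z hz => (hag z hz).symm) h⟩⟩
  have huniq : ∀ m m' D D' : M, Mem m w → Mem m' w → (∀ k : M, Mem k m → (Mem k D ↔ T D k)) →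
      (∀ k : M, Mem k m' → (Mem k D' ↔ T D' k)) →
      ∀ k : M, Mem k m → Mem k m' → (Mem k D ↔ Mem k D') := by
    intro m m' D D' hm hm' hD hD'
    have key : ∀ j : M, Mem j w → ∀ k : M, Mem k j → Mem k m → Mem k m' →
        (Mem k D ↔ Mem k D') := by
      refine hM.omega_ind hw (P := fun j => ∀ k : M, Mem k j → Mem k m → Mem k m' →
        (Mem k D ↔ Mem k D')) (.all (.imp (.mem (.var _) (.var _)) (.imp (.mem (.var _) (.const _))
          (.imp (.mem (.var _) (.const _)) (.iff (.mem (.var _) (.const _))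
            (.mem (.var _) (.const _))))))) ?_ ?_
      · intro e he k hk
        exact absurd hk (he k)
      · intro j hj ih j' hj' k hk hkm hkm'
        rcases (hj' k).1 hk with hk | rfl
        · exact ih k hk hkm hkm'
        · have hag : ∀ z : M, Mem z k → (Mem z D ↔ Mem z D') := fun z hz =>
            ih z hz ((hM.nat_trans hw m hm k hkm).2 z hz) ((hM.nat_trans hw m' hm' k hkm').2 z hz)
          rw [hD k hkm, hD' k hkm']
          exact ⟨hdep k hj _ _ hag, hdep k hj _ _ (fun z hz => (hag z hz).symm)⟩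
    intro k hk hk'
    have hkw := (hM.nat_trans hw m hm k hk).1
    obtain ⟨k', hks⟩ := hM.exists_succ k
    exact key k' (hM.succ_mem_omega hw hkw hks) k ((hks k).2 (Or.inr rfl)) hk hk'
  obtain ⟨B, hB⟩ := hM.sep (P := fun k => ∃ m D : M, Mem m w ∧ Mem k m ∧
      (∀ k : M, Mem k m → (Mem k D ↔ T D k)) ∧ Mem k D)
    (.ex (.ex (.and (.mem (.var _) (.const _)) (.and (.mem (.var _) (.var _))
      (.and (.all (.imp (.mem (.var _) (.var _)) (.iff (.mem (.var _) (.var _))
        (.app2 hT (.var _) (.var _))))) (.mem (.var _) (.var _))))))) w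
  refine ⟨B, fun z hz => ((hB z).1 hz).1, fun k hk => ?_⟩
  obtain ⟨m, hm⟩ := hM.exists_succ k
  have hmw := hM.succ_mem_omega hw hk hm
  obtain ⟨D, hD⟩ := hex m hmw
  have hag : ∀ z : M, Mem z m → (Mem z B ↔ Mem z D) := by
    intro z hz
    rw [hB]
    constructor
    · rintro ⟨_, m', D', hm', hz', hD', hzD'⟩
      exact (huniq m m' D D' hmw hm' hD hD' z hz hz').2 hzD'
    · intro h
      exact ⟨(hM.nat_trans hw m hmw z hz).1, m, D, hmw, hz, hD, h⟩
  have hkm : Mem k m := (hm k).2 (Or.inr rfl)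
  have hag' : ∀ z : M, Mem z k → (Mem z B ↔ Mem z D) := fun z hz => hag z ((hm z).2 (Or.inl hz))
  rw [hag k hkm, hD k hkm]
  exact ⟨hdep k hk _ _ (fun z hz => (hag' z hz).symm), hdep k hk _ _ hag'⟩

end IsZF

end Pool.Agent.Work.MP_d5d48f_lc
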