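import Pool.Agent.Work.MP_d5d48f_lc.Defs

/-!
Calculus of definable predicates: parameter-free and uniform in the structure (`UDef`), and with
parameters in a fixed structure (`Dfn`).
-/

universe u v w

namespace Pool.Agent.Work.MP_d5d48f_lc

open FirstOrder FirstOrder.Language

/-- uniformly definable, without parameters -/
def UDef {α : Type v} (P : ∀ (K : Type u) [LSet.Structure K], (α → K) → Prop) : Prop :=
  ∃ φ : LSet.Formula α, ∀ (K : Type u) [LSet.Structure K] (w : α → K), φ.Realize w ↔ P K w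

namespace UDef

variable {α : Type v} {P Q : ∀ (K : Type u) [LSet.Structure K], (α → K) → Prop}

theorem congr (hP : UDef P) (h : ∀ (K : Type u) [LSet.Structure K] (w : α → K), P K w ↔ Q K w) :
    UDef Q := by
  obtain ⟨φ, hφ⟩ := hP
  exact ⟨φ, fun K _ w => (hφ K w).trans (h K w)⟩

theorem not (hP : UDef P) : UDef (fun K _ w => ¬ P K w) := by
  obtain ⟨φ, hφ⟩ := hP
  exact ⟨φ.not, fun K _ w => by simp [hφ]⟩

theorem imp (hP : UDef P) (hQ : UDef Q) : UDef (fun K _ w => P K w → Q K w) := by
  obtain ⟨φ, hφ⟩ := hP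
  obtain ⟨ψ, hψ⟩ := hQ
  exact ⟨φ.imp ψ, fun K _ w => by simp [hφ, hψ]⟩

theorem and (hP : UDef P) (hQ : UDef Q) : UDef (fun K _ w => P K w ∧ Q K w) := by
  obtain ⟨φ, hφ⟩ := hP
  obtain ⟨ψ, hψ⟩ := hQ
  exact ⟨φ ⊓ ψ, fun K _ w => by simp [hφ, hψ]⟩

theorem or (hP : UDef P) (hQ : UDef Q) : UDef (fun K _ w => P K w ∨ Q K w) := by
  obtain ⟨φ, hφ⟩ := hP
  obtain ⟨ψ, hψ⟩ := hQ
  exact ⟨φ ⊔ ψ, fun K _ w => by simp [hφ, hψ]⟩

theorem iff (hP : UDef P) (hQ : UDef Q) : UDef (fun K _ w => P K w ↔ Q K w) := by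
  obtain ⟨φ, hφ⟩ := hP
  obtain ⟨ψ, hψ⟩ := hQ
  exact ⟨φ.iff ψ, fun K _ w => by simp [hφ, hψ]⟩

theorem mem (a b : α) : UDef (fun (K : Type u) _ (w : α → K) => Mem (w a) (w b)) := by
  refine ⟨Relations.formula₂ (L := LSet) MemRel.mem (Term.var a) (Term.var b), fun K _ w => ?_⟩
  exact Formula.realize_rel₂

theorem eq (a b : α) : UDef (fun (K : Type u) _ (w : α → K) => w a = w b) := by
  refine ⟨(Term.var a).equal (Term.var b), fun K _ w => ?_⟩
  simp [Formula.realize_equal]

theorem all {Q : ∀ (K : Type u) [LSet.Structure K], (α → K) → K → Prop}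
    (h : UDef (fun (K : Type u) _ (w : Option α → K) => Q K (fun i => w (some i)) (w none))) :
    UDef (fun K _ w => ∀ x : K, Q K w x) := by
  obtain ⟨φ, hφ⟩ := h
  refine ⟨Formula.iAlls (Fin 1) (φ.relabel (fun o : Option α => (o.elim (Sum.inr 0) Sum.inl :
    α ⊕ Fin 1))), fun K _ w => ?_⟩
  rw [Formula.realize_iAlls]
  simp only [Formula.realize_relabel, hφ]
  constructor
  · intro h x
    exact h (fun _ => x)
  · intro h i
    exact h (i 0)

theorem ex {Q : ∀ (K : Type u) [LSet.Structure K], (α → K) → K → Prop}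
    (h : UDef (fun (K : Type u) _ (w : Option α → K) => Q K (fun i => w (some i)) (w none))) :
    UDef (fun K _ w => ∃ x : K, Q K w x) := by
  obtain ⟨φ, hφ⟩ := h
  refine ⟨Formula.iExs (Fin 1) (φ.relabel (fun o : Option α => (o.elim (Sum.inr 0) Sum.inl :
    α ⊕ Fin 1))), fun K _ w => ?_⟩
  rw [Formula.realize_iExs]
  simp only [Formula.realize_relabel, hφ]
  constructor
  · rintro ⟨i, hi⟩
    exact ⟨i 0, hi⟩
  · rintro ⟨x, hx⟩
    exact ⟨fun _ => x, hx⟩

theorem comp {β : Type w} (hP : UDef P) (g : α → β) :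
    UDef (fun (K : Type u) _ (w : β → K) => P K (fun i => w (g i))) := by
  obtain ⟨φ, hφ⟩ := hP
  refine ⟨φ.relabel g, fun K _ w => ?_⟩
  rw [Formula.realize_relabel, hφ]
  rfl

end UDef

section Basics

variable {α : Type v}

theorem UDef.sub (a b : α) : UDef (fun (K : Type u) _ (w : α → K) => Sub (w a) (w b)) := by
  unfold Sub
  exact .all (.imp (.mem none (some a)) (.mem none (some b)))

theorem UDef.isEmptySet (a : α) : UDef (fun (K : Type u) _ (w : α → K) => IsEmptySet (w a)) := by
  unfold IsEmptySet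
  exact .all (.not (.mem none (some a)))

theorem UDef.isSucc (a b : α) : UDef (fun (K : Type u) _ (w : α → K) => IsSucc (w a) (w b)) := by
  unfold IsSucc
  exact .all (.iff (.mem none (some b)) (.or (.mem none (some a)) (.eq none (some a))))

theorem UDef.isInductive (a : α) :
    UDef (fun (K : Type u) _ (w : α → K) => IsInductive (w a)) := by
  unfold IsInductive
  exact .and (.ex (.and (.isEmptySet none) (.mem none (some a))))
    (.all (.imp (.mem none (some a)) (.ex (.and (.isSucc (some none) none)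
      (.mem none (some (some a)))))))

theorem UDef.isOmega (a : α) :
    UDef (fun (K : Type u) _ (w : α → K) => IsOmega (w a)) := by
  unfold IsOmega
  exact .and (.isInductive a) (.all (.imp (.isInductive none) (.sub (some a) none)))

theorem UDef.isPair (p a b : α) :
    UDef (fun (K : Type u) _ (w : α → K) => IsPair (w p) (w a) (w b)) := by
  unfold IsPair
  exact .all (.iff (.mem none (some p)) (.or (.eq none (some a)) (.eq none (some b))))

theorem UDef.isOPair (p a b : α) :
    UDef (fun (K : Type u) _ (w : α → K) => IsOPair (w p) (w a) (w b)) := by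
  unfold IsOPair
  exact .ex (.ex (.and (.isPair (some none) (some (some a)) (some (some a)))
    (.and (.isPair none (some (some a)) (some (some b)))
      (.isPair (some (some p)) (some none) none))))

theorem UDef.exUnique {Q : ∀ (K : Type u) [LSet.Structure K], (α → K) → K → Prop}
    (h : UDef (fun (K : Type u) _ (w : Option α → K) => Q K (fun i => w (some i)) (w none))) :
    UDef (fun K _ w => ∃! x : K, Q K w x) := by
  unfold ExistsUnique
  refine .ex (.and h (.all (.imp ?_ (.eq none (some none)))))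
  exact h.comp (fun o : Option α => (o.elim none (fun a => some (some a)) : Option (Option α)))

theorem UDef.isBijection (f a b : α) :
    UDef (fun (K : Type u) _ (w : α → K) => IsBijection (w f) (w a) (w b)) := by
  unfold IsBijection
  refine .and ?_ (.and ?_ ?_)
  · exact .all (.imp (.mem none (some f)) (.ex (.ex (.and (.mem (some none) (some (some (some a))))
      (.and (.mem none (some (some (some b)))) (.isOPair (some (some none)) (some none) none))))))
  · exact .all (.imp (.mem none (some a)) (.exUnique (.ex (.and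
      (.isOPair none (some (some none)) (some none)) (.mem none (some (some (some f))))))))
  · exact .all (.imp (.mem none (some b)) (.exUnique (.ex (.and
      (.isOPair none (some none) (some (some none))) (.mem none (some (some (some f))))))))

theorem UDef.isFinite (a : α) :
    UDef (fun (K : Type u) _ (w : α → K) => IsFinite (w a)) := by
  unfold IsFinite
  exact .ex (.ex (.ex (.and (.isOmega (some (some none))) (.and
    (.mem (some none) (some (some none)))
    (.isBijection none (some none) (some (some (some a))))))))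

end Basics

section Params

variable {M : Type u} [LSet.Structure M]

/-- definable with parameters from `M` -/
def Dfn {α : Type v} (P : (α → M) → Prop) : Prop :=
  ∃ φ : LSet.Formula (M ⊕ α), ∀ w : α → M, φ.Realize (Sum.elim id w) ↔ P w

/-- a variable or a constant, as a function of the assignment -/
def IsT {α : Type v} (f : (α → M) → M) : Prop :=
  ∃ t : M ⊕ α, ∀ w : α → M, Sum.elim id w t = f w

theorem IsT.var {α : Type v} (i : α) : IsT (fun w : α → M => w i) := ⟨Sum.inr i, fun _ => rfl⟩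

theorem IsT.const {α : Type v} (c : M) : IsT (fun _ : α → M => c) := ⟨Sum.inl c, fun _ => rfl⟩

namespace Dfn

variable {α : Type v} {β : Type w} {P Q : (α → M) → Prop}

theorem congr (hP : Dfn P) (h : ∀ w, P w ↔ Q w) : Dfn Q := by
  obtain ⟨φ, hφ⟩ := hP
  exact ⟨φ, fun w => (hφ w).trans (h w)⟩

theorem not (hP : Dfn P) : Dfn (fun w => ¬ P w) := by
  obtain ⟨φ, hφ⟩ := hP
  exact ⟨φ.not, fun w => by simp [hφ]⟩

theorem imp (hP : Dfn P) (hQ : Dfn Q) : Dfn (fun w => P w → Q w) := by
  obtain ⟨φ, hφ⟩ := hP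
  obtain ⟨ψ, hψ⟩ := hQ
  exact ⟨φ.imp ψ, fun w => by simp [hφ, hψ]⟩

theorem and (hP : Dfn P) (hQ : Dfn Q) : Dfn (fun w => P w ∧ Q w) := by
  obtain ⟨φ, hφ⟩ := hP
  obtain ⟨ψ, hψ⟩ := hQ
  exact ⟨φ ⊓ ψ, fun w => by simp [hφ, hψ]⟩

theorem or (hP : Dfn P) (hQ : Dfn Q) : Dfn (fun w => P w ∨ Q w) := by
  obtain ⟨φ, hφ⟩ := hP
  obtain ⟨ψ, hψ⟩ := hQ
  exact ⟨φ ⊔ ψ, fun w => by simp [hφ, hψ]⟩

theorem iff (hP : Dfn P) (hQ : Dfn Q) : Dfn (fun w => P w ↔ Q w) := by
  obtain ⟨φ, hφ⟩ := hP
  obtain ⟨ψ, hψ⟩ := hQ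
  exact ⟨φ.iff ψ, fun w => by simp [hφ, hψ]⟩

/-- substitution of terms -/
theorem subst (hP : Dfn P) (f : (β → M) → α → M) (hf : ∀ i, IsT (fun w => f w i)) :
    Dfn (fun w => P (f w)) := by
  obtain ⟨φ, hφ⟩ := hP
  choose t ht using hf
  refine ⟨φ.relabel (fun s : M ⊕ α => (s.elim Sum.inl t : M ⊕ β)), fun w => ?_⟩
  rw [Formula.realize_relabel]
  have : (Sum.elim id w ∘ fun s : M ⊕ α => (s.elim Sum.inl t : M ⊕ β)) = Sum.elim id (f w) := by
    funext s
    cases s with
    | inl c => rfl
    | inr i => exact ht i w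
  rw [this]
  exact hφ _

/-- parameter-free definable predicates, with terms substituted -/
theorem of_udef {P : ∀ (K : Type u) [LSet.Structure K], (α → K) → Prop} (hP : UDef P)
    (f : (β → M) → α → M) (hf : ∀ i, IsT (fun w => f w i)) :
    Dfn (fun w => P M (f w)) := by
  obtain ⟨φ, hφ⟩ := hP
  have h : Dfn (fun w : α → M => P M w) := by
    refine ⟨φ.relabel Sum.inr, fun w => ?_⟩
    rw [Formula.realize_relabel]
    exact hφ M w
  exact h.subst f hf

theorem all {Q : (α → M) → M → Prop}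
    (h : Dfn (fun w : Option α → M => Q (fun i => w (some i)) (w none))) :
    Dfn (fun w => ∀ x : M, Q w x) := by
  obtain ⟨φ, hφ⟩ := h
  refine ⟨Formula.iAlls (Fin 1) (φ.relabel (fun s : M ⊕ Option α =>
    (s.elim (fun c => Sum.inl (Sum.inl c)) (fun o => o.elim (Sum.inr 0)
      (fun a => Sum.inl (Sum.inr a))) : (M ⊕ α) ⊕ Fin 1))), fun w => ?_⟩
  rw [Formula.realize_iAlls]
  simp only [Formula.realize_relabel]
  have key : ∀ i : Fin 1 → M, (Sum.elim (Sum.elim id w) i ∘ fun s : M ⊕ Option α =>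
    (s.elim (fun c => Sum.inl (Sum.inl c)) (fun o => o.elim (Sum.inr 0)
      (fun a => Sum.inl (Sum.inr a))) : (M ⊕ α) ⊕ Fin 1)) =
      Sum.elim id (fun o : Option α => o.elim (i 0) w) := by
    intro i
    funext s
    rcases s with c | (_ | a) <;> rfl
  simp only [key, hφ]
  constructor
  · intro h x
    exact h (fun _ => x)
  · intro h i
    exact h (i 0)

theorem ex {Q : (α → M) → M → Prop}
    (h : Dfn (fun w : Option α → M => Q (fun i => w (some i)) (w none))) :
    Dfn (fun w => ∃ x : M, Q w x) := by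
  have h1 : Dfn (fun w : α → M => ∀ x : M, ¬ Q w x) := all (not h)
  exact (not h1).congr (fun w => by push Not; rfl)

theorem mem {f g : (α → M) → M} (hf : IsT f) (hg : IsT g) : Dfn (fun w => Mem (f w) (g w)) :=
  of_udef (α := Bool) (UDef.mem true false) (fun w b => if b then f w else g w)
    (fun i => by cases i <;> simpa)

theorem eq {f g : (α → M) → M} (hf : IsT f) (hg : IsT g) : Dfn (fun w => f w = g w) :=
  of_udef (α := Bool) (UDef.eq true false) (fun w b => if b then f w else g w)
    (fun i => by cases i <;> simpa)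

theorem sub {f g : (α → M) → M} (hf : IsT f) (hg : IsT g) : Dfn (fun w => Sub (f w) (g w)) :=
  of_udef (α := Bool) (UDef.sub true false) (fun w b => if b then f w else g w)
    (fun i => by cases i <;> simpa)

theorem isSucc {f g : (α → M) → M} (hf : IsT f) (hg : IsT g) :
    Dfn (fun w => IsSucc (f w) (g w)) :=
  of_udef (α := Bool) (UDef.isSucc true false) (fun w b => if b then f w else g w)
    (fun i => by cases i <;> simpa)

theorem isEmptySet {f : (α → M) → M} (hf : IsT f) : Dfn (fun w => IsEmptySet (f w)) :=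
  of_udef (α := Unit) (UDef.isEmptySet ()) (fun w _ => f w) (fun _ => hf)

theorem isInductive {f : (α → M) → M} (hf : IsT f) : Dfn (fun w => IsInductive (f w)) :=
  of_udef (α := Unit) (UDef.isInductive ()) (fun w _ => f w) (fun _ => hf)

theorem isOmega {f : (α → M) → M} (hf : IsT f) : Dfn (fun w => IsOmega (f w)) :=
  of_udef (α := Unit) (UDef.isOmega ()) (fun w _ => f w) (fun _ => hf)

theorem isFinite {f : (α → M) → M} (hf : IsT f) : Dfn (fun w => IsFinite (f w)) :=
  of_udef (α := Unit) (UDef.isFinite ()) (fun w _ => f w) (fun _ => hf)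

theorem isPair {f g h : (α → M) → M} (hf : IsT f) (hg : IsT g) (hh : IsT h) :
    Dfn (fun w => IsPair (f w) (g w) (h w)) :=
  of_udef (α := Fin 3) (UDef.isPair 0 1 2) (fun w i => ![f w, g w, h w] i)
    (fun i => by fin_cases i <;> simpa)

theorem isOPair {f g h : (α → M) → M} (hf : IsT f) (hg : IsT g) (hh : IsT h) :
    Dfn (fun w => IsOPair (f w) (g w) (h w)) :=
  of_udef (α := Fin 3) (UDef.isOPair 0 1 2) (fun w i => ![f w, g w, h w] i)
    (fun i => by fin_cases i <;> simpa)

theorem isBijection {f g h : (α → M) → M} (hf : IsT f) (hg : IsT g) (hh : IsT h) :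
    Dfn (fun w => IsBijection (f w) (g w) (h w)) :=
  of_udef (α := Fin 3) (UDef.isBijection 0 1 2) (fun w i => ![f w, g w, h w] i)
    (fun i => by fin_cases i <;> simpa)

theorem const (p : Prop) [Nonempty M] : Dfn (fun _ : α → M => p) := by
  by_cases hp : p
  · exact ⟨⊤, fun w => by simp [hp]⟩
  · exact ⟨⊥, fun w => by simp [hp]⟩

/-- quantification over a whole assignment of new variables -/
theorem exFun [Nonempty M] {Q : (α → M) → (β → M) → Prop}
    (h : Dfn (fun w : α ⊕ β → M => Q (fun i => w (Sum.inl i)) (fun j => w (Sum.inr j)))) :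
    Dfn (fun w : α → M => ∃ x : β → M, Q w x) := by
  classical
  obtain ⟨φ, hφ⟩ := h
  -- the finitely many new variables which occur
  let s : Finset (M ⊕ (α ⊕ β)) := φ.freeVarFinset
  let B : Finset β := s.toRight.toRight
  have hB : ∀ b : β, Sum.inr (Sum.inr b) ∈ s → b ∈ B := by
    intro b hb
    simp [B, hb]
  let g : s → (M ⊕ α) ⊕ B := fun x =>
    match x with
    | ⟨Sum.inl c, _⟩ => Sum.inl (Sum.inl c)
    | ⟨Sum.inr (Sum.inl a), _⟩ => Sum.inl (Sum.inr a)
    | ⟨Sum.inr (Sum.inr b), hb⟩ => Sum.inr ⟨b, hB b hb⟩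
  let ψ : LSet.Formula ((M ⊕ α) ⊕ B) := φ.restrictFreeVar g
  refine ⟨Formula.iExs B ψ, fun w => ?_⟩
  rw [Formula.realize_iExs]
  have key : ∀ (y : B → M) (x : β → M), (∀ b : B, x b = y b) →
      (ψ.Realize (Sum.elim (Sum.elim id w) y) ↔ Q w x) := by
    intro y x hxy
    have h1 : ψ.Realize (Sum.elim (Sum.elim id w) y) ↔ φ.Realize (Sum.elim id (Sum.elim w x)) := by
      have := BoundedFormula.realize_restrictFreeVar (φ := φ) (f := g)
        (v := Sum.elim (Sum.elim id w) y) (xs := default)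
        (v' := fun i : M ⊕ (α ⊕ β) => (Sum.elim id (Sum.elim w x) i))
      apply this
      rintro ⟨(c | a | b), hb⟩
      · rfl
      · rfl
      · exact (hxy ⟨b, hB b hb⟩).symm
    rw [h1, hφ]
    rfl
  constructor
  · rintro ⟨y, hy⟩
    refine ⟨fun b => if hb : b ∈ B then y ⟨b, hb⟩ else Classical.arbitrary M, ?_⟩
    refine (key y _ ?_).1 hy
    intro b
    simp
  · rintro ⟨x, hx⟩
    exact ⟨fun b => x b, (key _ x (fun _ => rfl)).2 hx⟩

theorem allFun [Nonempty M] {Q : (α → M) → (β → M) → Prop}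
    (h : Dfn (fun w : α ⊕ β → M => Q (fun i => w (Sum.inl i)) (fun j => w (Sum.inr j)))) :
    Dfn (fun w : α → M => ∀ x : β → M, Q w x) := by
  have h1 : Dfn (fun w : α → M => ∃ x : β → M, ¬ Q w x) := exFun (not h)
  exact (not h1).congr (fun w => by push Not; rfl)

end Dfn

/-- definable unary predicates -/
abbrev Dfn1 (P : M → Prop) : Prop := Dfn (fun w : Unit → M => P (w ()))

/-- definable binary predicates -/
abbrev Dfn2 (R : M → M → Prop) : Prop := Dfn (fun w : Option Unit → M => R (w (some ())) (w none))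

theorem Dfn.app1 {α : Type v} {P : M → Prop} (hP : Dfn1 P) {f : (α → M) → M} (hf : IsT f) :
    Dfn (fun w => P (f w)) :=
  Dfn.subst (P := fun w : Unit → M => P (w ())) hP (fun w _ => f w) (fun _ => hf)

theorem Dfn.app2 {α : Type v} {R : M → M → Prop} (hR : Dfn2 R) {f g : (α → M) → M}
    (hf : IsT f) (hg : IsT g) : Dfn (fun w => R (f w) (g w)) :=
  Dfn.subst (P := fun w : Option Unit → M => R (w (some ())) (w none)) hR
    (fun w o => o.elim (g w) (fun _ => f w)) (fun i => by cases i <;> simpa)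

theorem Dfn1.definable {P : M → Prop} (hP : Dfn1 P) :
    (Set.univ : Set M).Definable₁ LSet {x | P x} := by
  obtain ⟨φ, hφ⟩ := hP
  unfold Set.Definable₁
  rw [Set.definable_iff_exists_formula_sum]
  refine ⟨φ.relabel (fun s : M ⊕ Unit => (s.elim (fun c => Sum.inl ⟨c, Set.mem_univ c⟩)
    (fun _ => Sum.inr 0) : (Set.univ : Set M) ⊕ Fin 1)), ?_⟩
  ext v
  simp only [Set.mem_ofPred_eq, Formula.realize_relabel]
  refine (hφ (fun _ => v 0)).symm.trans ?_
  have : (Sum.elim (fun x : (Set.univ : Set M) => (x : M)) v ∘ fun s : M ⊕ Unit =>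
    (s.elim (fun c => Sum.inl ⟨c, Set.mem_univ c⟩)
    (fun _ => Sum.inr 0) : (Set.univ : Set M) ⊕ Fin 1)) = Sum.elim id (fun _ => v 0) := by
    funext s
    rcases s with c | _ <;> rfl
  rw [this]

theorem Dfn2.definable {R : M → M → Prop} (hR : Dfn2 R) :
    (Set.univ : Set M).Definable₂ LSet {x | R x.1 x.2} := by
  obtain ⟨φ, hφ⟩ := hR
  unfold Set.Definable₂
  rw [Set.definable_iff_exists_formula_sum]
  refine ⟨φ.relabel (fun s : M ⊕ Option Unit => (s.elim (fun c => Sum.inl ⟨c, Set.mem_univ c⟩)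
    (fun o => o.elim (Sum.inr 1) (fun _ => Sum.inr 0)) : (Set.univ : Set M) ⊕ Fin 2)), ?_⟩
  ext v
  simp only [Set.mem_ofPred_eq, Formula.realize_relabel]
  refine (hφ (fun o => o.elim (v 1) (fun _ => v 0))).symm.trans ?_
  have : (Sum.elim (fun x : (Set.univ : Set M) => (x : M)) v ∘ fun s : M ⊕ Option Unit =>
    (s.elim (fun c => Sum.inl ⟨c, Set.mem_univ c⟩)
    (fun o => o.elim (Sum.inr 1) (fun _ => Sum.inr 0)) : (Set.univ : Set M) ⊕ Fin 2)) =
      Sum.elim id (fun o => o.elim (v 1) (fun _ => v 0)) := by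
    funext s
    rcases s with c | (_ | _) <;> rfl
  rw [this]

end Params

end Pool.Agent.Work.MP_d5d48f_lc
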