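import Pool.Agent.Work.MP_d5d48f_lc.Bits

/-!
The Collection principle holds in every model of ZF (axiomatised with Replacement).
-/

universe u

namespace Pool.Agent.Work.MP_d5d48f_lc

/-- `f` contains the iteration of `G` starting with `a` at least up to `n`, and is functional
up to `n` -/
def Att {M : Type u} [LSet.Structure M] (G : M → M → Prop) (a f n : M) : Prop :=
  (∀ e : M, IsEmptySet e → InG f e a) ∧
  (∀ k : M, Mem k n → ∀ v : M, InG f k v → ∀ k' : M, IsSucc k k' → ∀ v' : M, G v v' → InG f k' v') ∧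
  (∀ k : M, (Mem k n ∨ k = n) → ∀ v v' : M, InG f k v → InG f k v' → v = v')

theorem Dfn.att {M : Type u} [LSet.Structure M] {G : M → M → Prop} (hG : Dfn2 G) (a : M)
    {α : Type*} {f n : (α → M) → M} (hf : IsT f) (hn : IsT n) :
    Dfn (fun w => Att G a (f w) (n w)) := by
  refine Dfn.subst (P := fun w : Bool → M => Att G a (w true) (w false)) ?_
    (fun w b => if b then f w else n w) (fun i => by cases i <;> simpa)
  unfold Att
  refine .and (.all (.imp (.isEmptySet (.var _)) (.inG (.var _) (.var _) (.const _)))) (.and ?_ ?_)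
  · exact .all (.imp (.mem (.var _) (.var _)) (.all (.imp (.inG (.var _) (.var _) (.var _))
      (.all (.imp (.isSucc (.var _) (.var _)) (.all (.imp (.app2 hG (.var _) (.var _))
        (.inG (.var _) (.var _) (.var _)))))))))
  · exact .all (.imp (.or (.mem (.var _) (.var _)) (.eq (.var _) (.var _))) (.all (.all (.imp
      (.inG (.var _) (.var _) (.var _)) (.imp (.inG (.var _) (.var _) (.var _))
        (.eq (.var _) (.var _)))))))

/-- `s` is the set of all subsets of elements of `h` -/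
def IsPot {M : Type u} [LSet.Structure M] (h s : M) : Prop :=
  ∀ x : M, Mem x s ↔ ∃ c : M, Mem c h ∧ Sub x c

/-- histories -/
def IsHist {M : Type u} [LSet.Structure M] (h : M) : Prop :=
  ∀ r : M, Mem r h → ∀ x : M, Mem x r ↔ ∃ c : M, Mem c r ∧ Mem c h ∧ Sub x c

/-- levels -/
def IsLevel {M : Type u} [LSet.Structure M] (s : M) : Prop := ∃ h : M, IsHist h ∧ IsPot h s

theorem Dfn.isPot {M : Type u} [LSet.Structure M] {α : Type*} {f g : (α → M) → M} (hf : IsT f)
    (hg : IsT g) : Dfn (fun w => IsPot (f w) (g w)) := by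
  refine Dfn.subst (P := fun w : Bool → M => IsPot (w true) (w false)) ?_
    (fun w b => if b then f w else g w) (fun i => by cases i <;> simpa)
  unfold IsPot
  exact .all (.iff (.mem (.var _) (.var _)) (.ex (.and (.mem (.var _) (.var _))
    (.sub (.var _) (.var _)))))

theorem Dfn.isHist {M : Type u} [LSet.Structure M] {α : Type*} {f : (α → M) → M} (hf : IsT f) :
    Dfn (fun w => IsHist (f w)) := by
  refine Dfn.subst (P := fun w : Unit → M => IsHist (w ())) ?_ (fun w _ => f w) (fun _ => hf)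
  unfold IsHist
  exact .all (.imp (.mem (.var _) (.var _)) (.all (.iff (.mem (.var _) (.var _)) (.ex (.and
    (.mem (.var _) (.var _)) (.and (.mem (.var _) (.var _)) (.sub (.var _) (.var _))))))))

theorem Dfn.isLevel {M : Type u} [LSet.Structure M] {α : Type*} {f : (α → M) → M} (hf : IsT f) :
    Dfn (fun w => IsLevel (f w)) := by
  refine Dfn.subst (P := fun w : Unit → M => IsLevel (w ())) ?_ (fun w _ => f w) (fun _ => hf)
  unfold IsLevel
  exact .ex (.and (.isHist (.var _)) (.isPot (.var _) (.var _)))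

namespace IsZF

variable {M : Type u} [LSet.Structure M] (hM : IsZF M)

include hM

/-! ### iteration along the natural numbers -/

omit hM in
theorem att_succ {G : M → M → Prop} {a f n m : M} (hm : IsSucc n m) (h : Att G a f m) :
    Att G a f n := by
  obtain ⟨h1, h2, h3⟩ := h
  refine ⟨h1, fun k hk => h2 k ((hm k).2 (Or.inl hk)), fun k hk => h3 k (Or.inl ((hm k).2 ?_))⟩
  rcases hk with hk | rfl
  · exact Or.inl hk
  · exact Or.inr rfl

theorem att_total {w : M} (hw : IsOmega w) {G : M → M → Prop} (hG : Dfn2 G)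
    (hGt : ∀ x : M, ∃ y : M, G x y) (a : M) :
    ∀ n : M, Mem n w → ∀ f : M, Att G a f n → ∃ v : M, InG f n v := by
  refine hM.omega_ind hw (P := fun n => ∀ f : M, Att G a f n → ∃ v : M, InG f n v)
    (.all (.imp (.att hG a (.var _) (.var _)) (.ex (.inG (.var _) (.var _) (.var _))))) ?_ ?_
  · intro e he f hf
    exact ⟨a, hf.1 e he⟩
  · intro n hn ih m hm f hf
    obtain ⟨v, hv⟩ := ih f (att_succ hm hf)
    obtain ⟨v', hv'⟩ := hGt v
    exact ⟨v', hf.2.1 n ((hm n).2 (Or.inr rfl)) v hv m hm v' hv'⟩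

theorem att_unique {w : M} (hw : IsOmega w) {G : M → M → Prop} (hG : Dfn2 G)
    (hGt : ∀ x : M, ∃ y : M, G x y) (a : M) :
    ∀ n : M, Mem n w → ∀ f f' u u' : M, Att G a f n → Att G a f' n → InG f n u → InG f' n u' →
      u = u' := by
  refine hM.omega_ind hw (P := fun n => ∀ f f' u u' : M, Att G a f n → Att G a f' n →
    InG f n u → InG f' n u' → u = u')
    (.all (.all (.all (.all (.imp (.att hG a (.var _) (.var _)) (.imp (.att hG a (.var _) (.var _))
      (.imp (.inG (.var _) (.var _) (.var _)) (.imp (.inG (.var _) (.var _) (.var _))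
        (.eq (.var _) (.var _)))))))))) ?_ ?_
  · intro e he f f' u u' hf hf' hu hu'
    rw [hf.2.2 e (Or.inr rfl) u a hu (hf.1 e he), hf'.2.2 e (Or.inr rfl) u' a hu' (hf'.1 e he)]
  · intro n hn ih m hm f f' u u' hf hf' hu hu'
    obtain ⟨v, hv⟩ := hM.att_total hw hG hGt a n hn f (att_succ hm hf)
    obtain ⟨v', hv'⟩ := hM.att_total hw hG hGt a n hn f' (att_succ hm hf')
    have hvv : v = v' := ih f f' v v' (att_succ hm hf) (att_succ hm hf') hv hv'
    subst hvv
    obtain ⟨t, ht⟩ := hGt v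
    have h1 := hf.2.1 n ((hm n).2 (Or.inr rfl)) v hv m hm t ht
    have h2 := hf'.2.1 n ((hm n).2 (Or.inr rfl)) v hv' m hm t ht
    rw [hf.2.2 m (Or.inr rfl) u t hu h1, hf'.2.2 m (Or.inr rfl) u' t hu' h2]

theorem att_exists {w : M} (hw : IsOmega w) {G : M → M → Prop} (hG : Dfn2 G)
    (hGt : ∀ x : M, ∃ y : M, G x y) (hGu : ∀ x y y' : M, G x y → G x y' → y = y') (a : M) :
    ∀ n : M, Mem n w → ∃ f : M, Att G a f n := by
  obtain ⟨e, he⟩ := hM.exists_empty
  refine hM.omega_ind hw (P := fun n => ∃ f : M, Att G a f n)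
    (.ex (.att hG a (.var _) (.var _))) ?_ ?_
  · intro e' he'
    obtain rfl := hM.empty_unique he he'
    obtain ⟨f, hf, hf'⟩ := hM.exists_addPair e e a
    have hfe : ∀ x y : M, ¬ InG e x y := by
      rintro x y ⟨p, _, hp⟩
      exact he p hp
    refine ⟨f, ?_, ?_, ?_⟩
    · intro e' he'
      obtain rfl := hM.empty_unique he he'
      exact (hf' e a).2 (Or.inr ⟨rfl, rfl⟩)
    · intro k hk
      exact absurd hk (he k)
    · intro k hk v v' hv hv'
      rcases (hf' _ _).1 hv with h | ⟨_, rfl⟩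
      · exact absurd h (hfe _ _)
      rcases (hf' _ _).1 hv' with h | ⟨_, rfl⟩
      · exact absurd h (hfe _ _)
      rfl
  · rintro n hn ⟨f, hf⟩ m hm
    have hmw := hM.succ_mem_omega hw hn hm
    obtain ⟨v, hv⟩ := hM.att_total hw hG hGt a n hn f hf
    obtain ⟨v', hv'⟩ := hGt v
    obtain ⟨f₁, _, hf₁⟩ := hM.exists_restrict (Q := fun k _ => Mem k n ∨ k = n)
      (.or (.mem (.var _) (.const _)) (.eq (.var _) (.const _))) f
    obtain ⟨f₂, _, hf₂⟩ := hM.exists_addPair f₁ m v'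
    have hmn : ¬ (Mem m n ∨ m = n) := by
      intro h
      exact hM.irrefl m ((hm m).2 h)
    have hkm : ∀ k : M, Mem k m → k ≠ m := by
      rintro k hk rfl
      exact hM.irrefl _ hk
    have hlow : ∀ k : M, Mem k m → ∀ x : M, InG f₂ k x ↔ InG f k x := by
      intro k hk x
      rw [hf₂, hf₁]
      constructor
      · rintro (⟨h, _⟩ | ⟨h, _⟩)
        · exact h
        · exact absurd h (hkm k hk)
      · intro h
        exact Or.inl ⟨h, (hm k).1 hk⟩
    refine ⟨f₂, ?_, ?_, ?_⟩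
    · intro e' he'
      obtain rfl := hM.empty_unique he he'
      have hem : Mem e m := by
        rcases hM.nat_tri hw n hn e (hM.empty_mem_omega hw he) with h | h | h
        · exact (hm e).2 (Or.inl h)
        · exact (hm e).2 (Or.inr h)
        · exact absurd h (he _)
      exact (hlow e hem a).2 (hf.1 e he)
    · intro k hk x hx k' hk' x' hx'
      rw [hlow k hk] at hx
      rcases (hm k).1 hk with h | rfl
      · have h1 := hf.2.1 k h x hx k' hk' x' hx'
        have h2 := hM.nat_succ_le hw hk' n hn h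
        exact (hlow k' ((hm k').2 h2) x').2 h1
      · obtain rfl := hM.succ_unique hm hk'
        have hxv : x = v := hf.2.2 k (Or.inr rfl) x v hx hv
        subst hxv
        obtain rfl := hGu _ _ _ hv' hx'
        exact (hf₂ _ _).2 (Or.inr ⟨rfl, rfl⟩)
    · intro k hk x x' hx hx'
      rcases hk with hk | rfl
      · rw [hlow k hk] at hx hx'
        exact hf.2.2 k ((hm k).1 hk) x x' hx hx'
      · rcases (hf₂ _ _).1 hx with h | ⟨_, rfl⟩
        · exact absurd ((hf₁ _ _).1 h).2 hmn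
        rcases (hf₂ _ _).1 hx' with h | ⟨_, rfl⟩
        · exact absurd ((hf₁ _ _).1 h).2 hmn
        rfl

/-- every set is included in a transitive set -/
theorem exists_transitive (a : M) :
    ∃ t : M, Sub a t ∧ ∀ y : M, Mem y t → Sub y t := by
  obtain ⟨w, hw⟩ := hM.exists_omega
  let G : M → M → Prop := fun x u => ∀ z : M, Mem z u ↔ ∃ y : M, Mem y x ∧ Mem z y
  have hG : Dfn2 G := .all (.iff (.mem (.var _) (.var _)) (.ex (.and (.mem (.var _) (.var _))
    (.mem (.var _) (.var _)))))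
  have hGt : ∀ x : M, ∃ y : M, G x y := hM.union
  have hGu : ∀ x y y' : M, G x y → G x y' → y = y' := fun x y y' h h' =>
    hM.ext fun z => (h z).trans (h' z).symm
  let H : M → M → Prop := fun n u => ∃ f : M, Att G a f n ∧ InG f n u
  have hH : Dfn2 H := .ex (.and (.att hG a (.var _) (.var _)) (.inG (.var _) (.var _) (.var _)))
  have hHu : ∀ n : M, Mem n w → ∀ u u' : M, H n u → H n u' → u = u' := by
    rintro n hn u u' ⟨f, hf, hu⟩ ⟨f', hf', hu'⟩
    exact hM.att_unique hw hG hGt a n hn f f' u u' hf hf' hu hu'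
  obtain ⟨s, hs⟩ := hM.repl' hH w hHu
  obtain ⟨t, ht⟩ := hM.union s
  refine ⟨t, ?_, ?_⟩
  · intro z hz
    obtain ⟨e, he⟩ := hM.exists_empty
    have hew := hM.empty_mem_omega hw he
    obtain ⟨f, hf⟩ := hM.att_exists hw hG hGt hGu a e hew
    exact (ht z).2 ⟨a, (hs a).2 ⟨e, hew, f, hf, hf.1 e he⟩, hz⟩
  · intro y hy z hz
    obtain ⟨u, hu, hyu⟩ := (ht y).1 hy
    obtain ⟨n, hn, hnu⟩ := (hs u).1 hu
    obtain ⟨m, hm⟩ := hM.exists_succ n
    have hmw := hM.succ_mem_omega hw hn hm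
    obtain ⟨f, hf⟩ := hM.att_exists hw hG hGt hGu a m hmw
    obtain ⟨v, hv⟩ := hM.att_total hw hG hGt a n hn f (att_succ hm hf)
    have hvu : v = u := hHu n hn v u ⟨f, att_succ hm hf, hv⟩ hnu
    subst hvu
    obtain ⟨v', hv'⟩ := hGt v
    have h1 := hf.2.1 n ((hm n).2 (Or.inr rfl)) v hv m hm v' hv'
    exact (ht z).2 ⟨v', (hs v').2 ⟨m, hmw, f, hf, h1⟩, (hv' z).2 ⟨y, hyu, hz⟩⟩

/-! ### levels -/

theorem exists_pot (h : M) : ∃ s : M, IsPot h s := by
  obtain ⟨u, hu⟩ := hM.union h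
  obtain ⟨p, hp⟩ := hM.powerset u
  obtain ⟨s, hs⟩ := hM.sep (P := fun x => ∃ c : M, Mem c h ∧ Sub x c)
    (.ex (.and (.mem (.var _) (.const _)) (.sub (.var _) (.var _)))) p
  refine ⟨s, fun x => ⟨fun hx => ((hs x).1 hx).2, fun hx => (hs x).2 ⟨?_, hx⟩⟩⟩
  obtain ⟨c, hc, hxc⟩ := hx
  exact (hp x).2 fun z hz => (hu z).2 ⟨c, hc, hxc z hz⟩

theorem hist_trans {h : M} (hh : IsHist h) {r : M} (hr : Mem r h) :
    ∀ x : M, Mem x r → Sub x r := by
  by_contra hcon
  obtain ⟨b, hb⟩ := hM.sep (P := fun r => ¬ ∀ x : M, Mem x r → Sub x r)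
    (.not (.all (.imp (.mem (.var _) (.var _)) (.sub (.var _) (.var _))))) h
  obtain ⟨q, hq, hq'⟩ := hM.foundation b ⟨r, (hb r).2 ⟨hr, hcon⟩⟩
  obtain ⟨hqh, hqn⟩ := (hb q).1 hq
  apply hqn
  intro x hx z hz
  obtain ⟨c, hcq, hch, hxc⟩ := (hh q hqh x).1 hx
  have hct : ∀ x : M, Mem x c → Sub x c := by
    by_contra hc
    exact hq' c ((hb c).2 ⟨hch, hc⟩) hcq
  obtain ⟨d, hdc, hdh, hzd⟩ := (hh c hch z).1 (hxc z hz)
  have hdq : Mem d q := (hh q hqh d).2 ⟨c, hcq, hch, hct d hdc⟩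
  exact (hh q hqh z).2 ⟨d, hdq, hdh, hzd⟩

theorem hist_level {h : M} (hh : IsHist h) {r : M} (hr : Mem r h) : IsLevel r := by
  obtain ⟨h', hh'⟩ := hM.sep (P := fun c => Mem c h) (.mem (.var _) (.const _)) r
  refine ⟨h', ?_, ?_⟩
  · intro q hq x
    obtain ⟨hqr, hqh⟩ := (hh' q).1 hq
    rw [hh q hqh x]
    constructor
    · rintro ⟨c, hcq, hch, hxc⟩
      exact ⟨c, hcq, (hh' c).2 ⟨hM.hist_trans hh hr q hqr c hcq, hch⟩, hxc⟩
    · rintro ⟨c, hcq, hch, hxc⟩
      exact ⟨c, hcq, ((hh' c).1 hch).2, hxc⟩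
  · intro x
    rw [hh r hr x]
    constructor
    · rintro ⟨c, hcr, hch, hxc⟩
      exact ⟨c, (hh' c).2 ⟨hcr, hch⟩, hxc⟩
    · rintro ⟨c, hc, hxc⟩
      obtain ⟨hcr, hch⟩ := (hh' c).1 hc
      exact ⟨c, hcr, hch, hxc⟩

omit hM in
theorem level_trans {s : M} (hs : IsLevel s) : ∀ x : M, Mem x s → Sub x s := by
  obtain ⟨h, hh, hs⟩ := hs
  intro x hx z hz
  obtain ⟨c, hc, hxc⟩ := (hs x).1 hx
  obtain ⟨d, hdc, hdh, hzd⟩ := (hh c hc z).1 (hxc z hz)
  exact (hs z).2 ⟨d, hdh, hzd⟩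

omit hM in
theorem level_potent {s : M} (hs : IsLevel s) {x y : M} (hxy : Sub x y) (hy : Mem y s) :
    Mem x s := by
  obtain ⟨h, hh, hs⟩ := hs
  obtain ⟨c, hc, hyc⟩ := (hs y).1 hy
  exact (hs x).2 ⟨c, hc, fun z hz => hyc z (hxy z hz)⟩

theorem level_mem_iff {s : M} (hs : IsLevel s) (x : M) :
    Mem x s ↔ ∃ r : M, Mem r s ∧ IsLevel r ∧ Sub x r := by
  constructor
  · intro hx
    obtain ⟨h, hh, hs'⟩ := hs
    obtain ⟨c, hc, hxc⟩ := (hs' x).1 hx
    exact ⟨c, (hs' c).2 ⟨c, hc, fun _ h => h⟩, hM.hist_level hh hc, hxc⟩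
  · rintro ⟨r, hr, _, hxr⟩
    exact level_potent hs hxr hr

theorem level_min {P : M → Prop} (hP : Dfn1 P) {s : M} (hs : IsLevel s) (hPs : P s) :
    ∃ t : M, IsLevel t ∧ P t ∧ ∀ r : M, Mem r t → IsLevel r → ¬ P r := by
  by_cases hmin : ∀ r : M, Mem r s → IsLevel r → ¬ P r
  · exact ⟨s, hs, hPs, hmin⟩
  push Not at hmin
  obtain ⟨r, hr, hrl, hPr⟩ := hmin
  obtain ⟨b, hb⟩ := hM.sep (P := fun r => IsLevel r ∧ P r)
    (.and (.isLevel (.var _)) (.app1 hP (.var _))) s
  obtain ⟨t, ht, ht'⟩ := hM.foundation b ⟨r, (hb r).2 ⟨hr, hrl, hPr⟩⟩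
  obtain ⟨hts, htl, hPt⟩ := (hb t).1 ht
  refine ⟨t, htl, hPt, fun q hq hql hPq => ?_⟩
  exact ht' q ((hb q).2 ⟨level_trans hs t hts q hq, hql, hPq⟩) hq

theorem level_tri {s t : M} (hs : IsLevel s) (ht : IsLevel t) :
    Mem s t ∨ s = t ∨ Mem t s := by
  by_contra hcon
  -- a minimal level `s'` which is incomparable with some level
  obtain ⟨s', hs', ⟨t₀, ht₀, hst₀⟩, hmin⟩ := hM.level_min
    (P := fun s => ∃ t : M, IsLevel t ∧ ¬ (Mem s t ∨ s = t ∨ Mem t s))
    (.ex (.and (.isLevel (.var _)) (.not (.or (.mem (.var _) (.var _)) (.or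
      (.eq (.var _) (.var _)) (.mem (.var _) (.var _))))))) hs ⟨t, ht, hcon⟩
  obtain ⟨t', ht', hst', hmin'⟩ := hM.level_min
    (P := fun t => ¬ (Mem s' t ∨ s' = t ∨ Mem t s'))
    (.not (.or (.mem (.const _) (.var _)) (.or
      (.eq (.const _) (.var _)) (.mem (.var _) (.const _))))) ht₀ hst₀
  apply hst'
  right; left
  have h1 : ∀ r : M, Mem r s' → IsLevel r → Mem r t' := by
    intro r hr hrl
    have h := hmin r hr hrl
    push Not at h
    rcases h t' ht' with h | rfl | h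
    · exact h
    · exact absurd (Or.inr (Or.inr hr)) hst'
    · exact absurd (Or.inr (Or.inr (level_trans hs' r hr t' h))) hst'
  have h2 : ∀ r : M, Mem r t' → IsLevel r → Mem r s' := by
    intro r hr hrl
    have h := hmin' r hr hrl
    push Not at h
    rcases h with h | rfl | h
    · exact absurd (Or.inl (level_trans ht' r hr s' h)) hst'
    · exact absurd (Or.inl hr) hst'
    · exact h
  refine hM.ext fun x => ?_
  rw [hM.level_mem_iff hs', hM.level_mem_iff ht']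
  constructor
  · rintro ⟨r, hr, hrl, hxr⟩
    exact ⟨r, h1 r hr hrl, hrl, hxr⟩
  · rintro ⟨r, hr, hrl, hxr⟩
    exact ⟨r, h2 r hr hrl, hrl, hxr⟩

/-- the least level with a definable property exists and is unique -/
theorem level_least {P : M → Prop} (hP : Dfn1 P) {s : M} (hs : IsLevel s) (hPs : P s) :
    ∃! t : M, IsLevel t ∧ P t ∧ ∀ r : M, Mem r t → IsLevel r → ¬ P r := by
  obtain ⟨t, ht⟩ := hM.level_min hP hs hPs
  refine ⟨t, ht, fun t' ht' => ?_⟩
  rcases hM.level_tri ht.1 ht'.1 with h | h | h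
  · exact absurd ht.2.1 (ht'.2.2 t h ht.1)
  · exact h.symm
  · exact absurd ht'.2.1 (ht.2.2 t' h ht'.1)

/-- every set belongs to a level -/
theorem exists_level (x : M) : ∃ s : M, IsLevel s ∧ Mem x s := by
  -- the inductive step
  have step : ∀ x : M, (∀ y : M, Mem y x → ∃ s : M, IsLevel s ∧ Mem y s) →
      ∃ s : M, IsLevel s ∧ Mem x s := by
    intro x hx
    let L : M → M → Prop := fun y s => IsLevel s ∧ Mem y s ∧
      ∀ r : M, Mem r s → IsLevel r → ¬ Mem y r
    have hL : Dfn2 L := .and (.isLevel (.var _)) (.and (.mem (.var _) (.var _)) (.all (.imp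
      (.mem (.var _) (.var _)) (.imp (.isLevel (.var _)) (.not (.mem (.var _) (.var _)))))))
    obtain ⟨R, hR⟩ := hM.repl hL x (by
      intro y hy
      obtain ⟨s, hs, hys⟩ := hx y hy
      exact hM.level_least (P := fun s => Mem y s) (.mem (.const _) (.var _)) hs hys)
    obtain ⟨UR, hUR⟩ := hM.union R
    obtain ⟨V, hV⟩ := hM.exists_union2 R UR
    obtain ⟨h, hh⟩ := hM.sep (P := fun r => IsLevel r) (.isLevel (.var _)) V
    have hh' : ∀ r : M, Mem r h ↔ ((Mem r R ∨ ∃ l : M, Mem l R ∧ Mem r l) ∧ IsLevel r) := by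
      intro r
      rw [hh, hV, hUR]
    have hRl : ∀ l : M, Mem l R → IsLevel l := by
      intro l hl
      obtain ⟨y, _, hy⟩ := (hR l).1 hl
      exact hy.1
    have hhist : IsHist h := by
      intro r hr z
      obtain ⟨hr1, hrl⟩ := (hh' r).1 hr
      constructor
      · intro hz
        obtain ⟨c, hc, hcl, hzc⟩ := (hM.level_mem_iff hrl z).1 hz
        refine ⟨c, hc, (hh' c).2 ⟨?_, hcl⟩, hzc⟩
        rcases hr1 with hr1 | ⟨l, hl, hrl'⟩
        · exact Or.inr ⟨r, hr1, hc⟩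
        · exact Or.inr ⟨l, hl, level_trans (hRl l hl) r hrl' c hc⟩
      · rintro ⟨c, hc, _, hzc⟩
        exact level_potent hrl hzc hc
    obtain ⟨s, hs⟩ := hM.exists_pot h
    have hsl : IsLevel s := ⟨h, hhist, hs⟩
    have hxs : Sub x s := by
      intro y hy
      obtain ⟨s', hs', hys'⟩ := hx y hy
      obtain ⟨l, hl, _⟩ := hM.level_least (P := fun s => Mem y s) (.mem (.const _) (.var _)) hs' hys'
      have hlR : Mem l R := (hR l).2 ⟨y, hy, hl⟩
      have hlh : Mem l h := (hh' l).2 ⟨Or.inl hlR, hl.1⟩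
      have hls : Mem l s := (hs l).2 ⟨l, hlh, fun _ h => h⟩
      exact level_trans hsl l hls y hl.2.1
    -- the next level
    obtain ⟨b, hb⟩ := hM.sep (P := fun r => IsLevel r) (.isLevel (.var _)) s
    obtain ⟨h₂, hh₂⟩ := hM.exists_insert b s
    have hhist₂ : IsHist h₂ := by
      intro r hr z
      have hr' : (Mem r s ∨ r = s) ∧ IsLevel r := by
        rcases (hh₂ r).1 hr with hr | rfl
        · exact ⟨Or.inl ((hb r).1 hr).1, ((hb r).1 hr).2⟩
        · exact ⟨Or.inr rfl, hsl⟩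
      constructor
      · intro hz
        obtain ⟨c, hc, hcl, hzc⟩ := (hM.level_mem_iff hr'.2 z).1 hz
        refine ⟨c, hc, (hh₂ c).2 (Or.inl ((hb c).2 ⟨?_, hcl⟩)), hzc⟩
        rcases hr'.1 with h | rfl
        · exact level_trans hsl r h c hc
        · exact hc
      · rintro ⟨c, hc, _, hzc⟩
        exact level_potent hr'.2 hzc hc
    obtain ⟨s₂, hs₂⟩ := hM.exists_pot h₂
    exact ⟨s₂, ⟨h₂, hhist₂, hs₂⟩, (hs₂ x).2 ⟨s, (hh₂ s).2 (Or.inr rfl), hxs⟩⟩
  by_contra hcon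
  -- the failure in the transitive closure
  obtain ⟨p, hp⟩ := hM.exists_pair x x
  obtain ⟨t, hpt, ht⟩ := hM.exists_transitive p
  obtain ⟨b, hb⟩ := hM.sep (P := fun y => ¬ ∃ s : M, IsLevel s ∧ Mem y s)
    (.not (.ex (.and (.isLevel (.var _)) (.mem (.var _) (.var _))))) t
  obtain ⟨y, hy, hy'⟩ := hM.foundation b ⟨x, (hb x).2 ⟨hpt x ((hp x).2 (Or.inl rfl)), hcon⟩⟩
  obtain ⟨hyt, hyn⟩ := (hb y).1 hy
  apply hyn
  apply step
  intro z hz
  by_contra hzn
  exact hy' z ((hb z).2 ⟨ht y hyt z hz, hzn⟩) hz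

/-- Collection -/
theorem collection {R : M → M → Prop} (hR : Dfn2 R) (a : M) :
    ∃ b : M, ∀ x : M, Mem x a → (∃ y : M, R x y) → ∃ y : M, Mem y b ∧ R x y := by
  let L : M → M → Prop := fun x s => IsLevel s ∧ (∃ y : M, Mem y s ∧ R x y) ∧
    ∀ r : M, Mem r s → IsLevel r → ¬ ∃ y : M, Mem y r ∧ R x y
  have hL : Dfn2 L := .and (.isLevel (.var _)) (.and (.ex (.and (.mem (.var _) (.var _))
    (.app2 hR (.var _) (.var _)))) (.all (.imp
    (.mem (.var _) (.var _)) (.imp (.isLevel (.var _)) (.not (.ex (.and (.mem (.var _) (.var _))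
      (.app2 hR (.var _) (.var _)))))))))
  have hP : ∀ x : M, Dfn1 (fun s => ∃ y : M, Mem y s ∧ R x y) := fun x =>
    .ex (.and (.mem (.var _) (.var _)) (.app2 hR (.const _) (.var _)))
  obtain ⟨c, hc⟩ := hM.repl' hL a (by
    intro x hx s s' hs hs'
    obtain ⟨t, _, ht⟩ := hM.level_least (hP x) hs.1 hs.2.1
    rw [ht s hs, ht s' hs'])
  obtain ⟨b, hb⟩ := hM.union c
  refine ⟨b, fun x hx ⟨y, hy⟩ => ?_⟩
  obtain ⟨s, hs, hys⟩ := hM.exists_level y
  obtain ⟨t, ht, _⟩ := hM.level_least (hP x) hs ⟨y, hys, hy⟩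
  obtain ⟨z, hz, hxz⟩ := ht.2.1
  exact ⟨z, (hb z).2 ⟨t, (hc t).2 ⟨x, hx, ht⟩, hz⟩, hxz⟩

end IsZF

end Pool.Agent.Work.MP_d5d48f_lc
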