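import Mathlib

/-!
Definitions for the extension theorem: the first-order language with one binary relation symbol,
the axioms of ZF (with the schemes of Separation and Replacement for formulas of this language,
with parameters), and the axioms of the theory BSPT' of nonstandard set theory.
-/

universe u

namespace Pool.Agent.Work.MP_d5d48f_lc

open FirstOrder FirstOrder.Language

/-- The relation symbols of the membership language: one binary symbol. -/
inductive MemRel : ℕ → Type
  | mem : MemRel 2

/-- The membership language: no function symbols and one binary relation symbol. -/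
def LSet : FirstOrder.Language.{0, 0} := ⟨fun _ => Empty, MemRel⟩

section Basic

variable {K : Type u} [LSet.Structure K]

/-- `x` is an element of `y`, in the sense of the structure `K`. -/
def Mem (x y : K) : Prop := Structure.RelMap (L := LSet) MemRel.mem ![x, y]

/-- `x` is a subset of `y`, in the sense of `K`. -/
def Sub (x y : K) : Prop := ∀ z : K, Mem z x → Mem z y

/-- `x` is the empty set of `K`. -/
def IsEmptySet (x : K) : Prop := ∀ z : K, ¬ Mem z x

/-- `y = x ∪ {x}` in `K`. -/
def IsSucc (x y : K) : Prop := ∀ z : K, Mem z y ↔ (Mem z x ∨ z = x)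

/-- `w` is an inductive set: it contains the empty set and is closed under `x ↦ x ∪ {x}`. -/
def IsInductive (w : K) : Prop :=
  (∃ e : K, IsEmptySet e ∧ Mem e w) ∧ ∀ x : K, Mem x w → ∃ y : K, IsSucc x y ∧ Mem y w

/-- `w` is the set of natural numbers of `K`: the least inductive set. -/
def IsOmega (w : K) : Prop := IsInductive w ∧ ∀ v : K, IsInductive v → Sub w v

/-- `p = {a, b}` in `K`. -/
def IsPair (p a b : K) : Prop := ∀ z : K, Mem z p ↔ (z = a ∨ z = b)

/-- `p` is the ordered pair `(a, b) = {{a}, {a, b}}` of `K`. -/
def IsOPair (p a b : K) : Prop :=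
  ∃ s t : K, IsPair s a a ∧ IsPair t a b ∧ IsPair p s t

/-- `f` is, in `K`, a bijection from `a` onto `b` (a set of ordered pairs). -/
def IsBijection (f a b : K) : Prop :=
  (∀ p : K, Mem p f → ∃ x y : K, Mem x a ∧ Mem y b ∧ IsOPair p x y) ∧
  (∀ x : K, Mem x a → ∃! y : K, ∃ p : K, IsOPair p x y ∧ Mem p f) ∧
  (∀ y : K, Mem y b → ∃! x : K, ∃ p : K, IsOPair p x y ∧ Mem p f)

/-- `a` is finite in `K`: some natural number of `K` is in bijection with `a`, in `K`. -/
def IsFinite (a : K) : Prop :=
  ∃ w n f : K, IsOmega w ∧ Mem n w ∧ IsBijection f n a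

end Basic

/-- The structure `K` is a model of ZF. The schemes of Separation and Replacement are stated for
all formulas of the membership language with parameters from `K`, through the sets of elements
(or of pairs) of `K` which such formulas define. -/
structure IsZF (K : Type u) [LSet.Structure K] : Prop where
  extensionality : ∀ x y : K, (∀ z : K, Mem z x ↔ Mem z y) → x = y
  foundation : ∀ x : K, (∃ y : K, Mem y x) → ∃ y : K, Mem y x ∧ ∀ z : K, Mem z x → ¬ Mem z y
  pairing : ∀ a b : K, ∃ p : K, ∀ z : K, Mem z p ↔ (z = a ∨ z = b)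
  union : ∀ x : K, ∃ u : K, ∀ z : K, Mem z u ↔ ∃ y : K, Mem y x ∧ Mem z y
  powerset : ∀ x : K, ∃ p : K, ∀ z : K, Mem z p ↔ Sub z x
  infinity : ∃ w : K, IsInductive w
  separation : ∀ D : Set K, (Set.univ : Set K).Definable₁ LSet D →
    ∀ a : K, ∃ b : K, ∀ x : K, Mem x b ↔ (Mem x a ∧ x ∈ D)
  replacement : ∀ R : Set (K × K), (Set.univ : Set K).Definable₂ LSet R →
    ∀ a : K, (∀ x : K, Mem x a → ∃! y : K, (x, y) ∈ R) →
      ∃ b : K, ∀ y : K, Mem y b ↔ ∃ x : K, Mem x a ∧ (x, y) ∈ R

/-- The structure `N` in which `st` is interpreted by the set `S` is a model of BSPT'.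
A formula of the membership language with standard parameters is a formula with parameters
from `S`; it is given by the set of elements (or of pairs) of `N` which it defines. -/
structure IsBSPT' {N : Type u} [LSet.Structure N] (S : Set N) : Prop where
  /-- all axioms of ZF -/
  zf : IsZF N
  /-- Transfer: what holds of all standard sets holds of all sets, for every formula of the
  membership language with standard parameters -/
  transfer : ∀ D : Set N, S.Definable₁ LSet D → (∀ x ∈ S, x ∈ D) → ∀ x : N, x ∈ D
  /-- Nontriviality: there is a natural number different from all standard ones -/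
  nontriviality : ∀ w : N, IsOmega w → ∃ ν : N, Mem ν w ∧ ∀ n ∈ S, Mem n w → n ≠ ν
  /-- Standard Part: for each set `A` of natural numbers there is a standard one with the
  same standard elements -/
  standardPart : ∀ w : N, IsOmega w → ∀ A : N, Sub A w →
    ∃ B ∈ S, Sub B w ∧ ∀ n ∈ S, Mem n w → (Mem n B ↔ Mem n A)
  /-- Boundedness: every set is an element of a standard set -/
  boundedness : ∀ x : N, ∃ X ∈ S, Mem x X
  /-- Bounded Idealization for formulas of the membership language with standard parameters -/
  boundedIdealization : ∀ R : Set (N × N), S.Definable₂ LSet R → ∀ A ∈ S, ∀ X ∈ S,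
    ((∀ a ∈ S, IsFinite a → Sub a A → ∃ x : N, Mem x X ∧ ∀ y : N, Mem y a → (x, y) ∈ R) ↔
      (∃ x : N, Mem x X ∧ ∀ y ∈ S, Mem y A → (x, y) ∈ R))

end Pool.Agent.Work.MP_d5d48f_lc
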