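import Pool.Agent.Work.MP_d5d48f_lc.Forcing
import Pool.Agent.Work.MP_d5d48f_lc.Collection

/-!
The density lemmas.
-/

universe u v w

namespace Pool.Agent.Work.MP_d5d48f_lc

open FirstOrder FirstOrder.Language Filter

variable {M : Type u} [LSet.Structure M] (hM : IsZF M)

include hM

/-- Collection for tuples -/
theorem IsZF.collection_tuple (k : ℕ) (K₀ : M) : ∀ {Q : M → (ℕ → M) → Prop},
    Dfn (fun w : Option ℕ → M => Q (w none) (fun i => w (some i))) →
    (∀ (z : M) (x y : ℕ → M), (∀ i < k, x i = y i) → Q z x → Q z y) →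
    ∃ K : M, ∀ x : ℕ → M, (∀ i < k, Mem (x i) K₀) → (∃ z : M, Q z x) → ∃ z : M, Mem z K ∧ Q z x := by
  induction k with
  | zero =>
    intro Q hQ hs
    obtain ⟨e, he⟩ := hM.exists_empty
    by_cases h : ∃ z : M, Q z (fun _ => e)
    · obtain ⟨z, hz⟩ := h
      obtain ⟨K, hK⟩ := hM.exists_pair z z
      exact ⟨K, fun x _ _ => ⟨z, (hK z).2 (Or.inl rfl), hs z _ _ (fun i hi => absurd hi (by omega)) hz⟩⟩
    · refine ⟨e, fun x _ hx => ?_⟩
      obtain ⟨z, hz⟩ := hx
      exact absurd ⟨z, hs z _ _ (fun i hi => absurd hi (by omega)) hz⟩ h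
  | succ k ih =>
    intro Q hQ hs
    -- for fixed `x`, collect over the coordinate `k`
    let Q' : M → (ℕ → M) → Prop := fun K x => ∀ y : M, Mem y K₀ →
      (∃ z : M, Q z (Function.update x k y)) → ∃ z : M, Mem z K ∧ Q z (Function.update x k y)
    have hsub : ∀ {α : Type} (f : (α → M) → ℕ → M) (g h : (α → M) → M), (∀ i, IsT (fun w => f w i)) →
        IsT g → IsT h → Dfn (fun w : α → M => Q (h w) (Function.update (f w) k (g w))) := by
      intro α f g h hf hg hh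
      refine hQ.subst (fun w o => o.elim (h w) (fun i => Function.update (f w) k (g w) i)) ?_
      intro o
      cases o with
      | none => exact hh
      | some i =>
        by_cases hi : i = k
        · subst hi
          simpa using hg
        · simpa [Function.update_of_ne hi] using hf i
    have hQ' : Dfn (fun w : Option ℕ → M => Q' (w none) (fun i => w (some i))) := by
      refine .all (.imp (.mem (.var _) (.const _)) (.imp (.ex ?_) (.ex (.and
        (.mem (.var _) (.var _)) ?_))))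
      · exact hsub _ _ _ (fun i => .var _) (.var _) (.var _)
      · exact hsub _ _ _ (fun i => .var _) (.var _) (.var _)
    have hs' : ∀ (z : M) (x y : ℕ → M), (∀ i < k, x i = y i) → Q' z x → Q' z y := by
      intro z x y hxy hx u hu
      have hag : ∀ i < k + 1, Function.update y k u i = Function.update x k u i := by
        intro i hi
        by_cases h : i = k
        · subst h; simp
        · rw [Function.update_of_ne h, Function.update_of_ne h, hxy i (by omega)]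
      rintro ⟨t, ht⟩
      obtain ⟨t', ht', ht''⟩ := hx u hu ⟨t, hs t _ _ hag ht⟩
      exact ⟨t', ht', hs t' _ _ (fun i hi => (hag i hi).symm) ht''⟩
    obtain ⟨L, hL⟩ := ih hQ' hs'
    obtain ⟨K, hK⟩ := hM.union L
    refine ⟨K, fun x hx hz => ?_⟩
    have hex : ∃ z : M, Q' z x := by
      obtain ⟨b, hb⟩ := hM.collection (R := fun y z => Q z (Function.update x k y))
        (hsub _ _ _ (fun i => .const _) (.var _) (.var _)) K₀
      exact ⟨b, hb⟩
    obtain ⟨z, hzL, hz'⟩ := hL x (fun i hi => hx i (by omega)) hex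
    obtain ⟨t, ht, ht'⟩ := hz' (x k) (hx k (by omega)) (by simpa using hz)
    exact ⟨t, (hK t).2 ⟨z, hzL, ht⟩, by simpa using ht'⟩

theorem IsGood.bound {F : Filter (ℕ → M)} {k : ℕ} (hF : IsGood F k) :
    ∀ m ≤ k, ∃ K : M, ∀ᶠ x in F, ∀ i < m, Mem (x i) K := by
  intro m
  induction m with
  | zero =>
    intro _
    obtain ⟨e, he⟩ := hM.exists_empty
    exact ⟨e, Eventually.of_forall fun x i hi => absurd hi (by omega)⟩
  | succ m ih =>
    intro hm
    obtain ⟨K, hK⟩ := ih (by omega)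
    obtain ⟨K', hK'⟩ := hF.bdd m (by omega)
    obtain ⟨L, hL⟩ := hM.exists_union2 K K'
    refine ⟨L, ?_⟩
    filter_upwards [hK, hK'] with x hx hx' i hi
    rcases Nat.lt_succ_iff_lt_or_eq.1 hi with h | rfl
    · exact (hL _).2 (Or.inl (hx i h))
    · exact (hL _).2 (Or.inr hx')

/-- The witness density lemma. -/
theorem dense_witness {F : Filter (ℕ → M)} {k : ℕ} (hF : IsGood F k) {Q : M → (ℕ → M) → Prop}
    (hQ : Dfn (fun w : Option ℕ → M => Q (w none) (fun i => w (some i)))) :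
    ∃ G ≤ F, ∃ k', IsGood G k' ∧ ((∀ᶠ x in G, ¬ ∃ z : M, Q z x) ∨
      ∃ m : ℕ, ∀ᶠ x in G, Q (x m) x) := by
  obtain ⟨m, hm⟩ := hQ.support_option
  obtain ⟨F₁, hF₁F, hF₁⟩ := hF.extendDim hM (max k m) (le_max_left _ _)
  set n := max k m with hn
  have hs : ∀ (z : M) (x y : ℕ → M), (∀ i < n, x i = y i) → Q z x → Q z y := fun z x y hxy =>
    hm z x y (fun i hi => hxy i (lt_of_lt_of_le hi (le_max_right _ _)))
  have hexQ : Dfn (fun x : ℕ → M => ∃ z : M, Q z x) := .ex hQ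
  rcases hF₁.decide hexQ (fun x y hxy ⟨z, hz⟩ => ⟨z, hs z x y hxy hz⟩) hM.nonempty with h | h
  · exact ⟨F₁, hF₁F, n, hF₁, Or.inl h⟩
  obtain ⟨K₀, hK₀⟩ := h.bound hM n le_rfl
  obtain ⟨K, hK⟩ := hM.collection_tuple n K₀ hQ hs
  have hex : ∀ᶠ x in (F₁ ⊓ 𝓟 {x | ∃ z : M, Q z x}), ∃ z : M, Q z x :=
    mem_inf_of_right (mem_principal_self _)
  set F₂ := F₁ ⊓ 𝓟 {x | ∃ z : M, Q z x} with hF₂
  refine ⟨F₂ ⊓ 𝓟 {x | Q (x n) x ∧ Mem (x n) K}, inf_le_left.trans (inf_le_left.trans hF₁F), n + 1,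
    ?_, Or.inr ⟨n, ?_⟩⟩
  · refine h.inf_principal (Nat.le_succ n) (.and ?_ (.mem (.var _) (.const _))) ?_ ?_ ?_
      hM.nonempty
    · refine hQ.subst (fun x o => o.elim (x n) x) ?_
      intro o
      cases o with
      | none => exact .var _
      | some i => exact .var _
    · rintro x y hxy ⟨h1, h2⟩
      refine ⟨?_, ?_⟩
      · rw [← hxy n (Nat.lt_succ_self n)]
        exact hs _ x y (fun i hi => hxy i (by omega)) h1
      · rw [← hxy n (Nat.lt_succ_self n)]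
        exact h2
    · rw [inf_neBot_iff]
      intro S hS S' hS'
      obtain ⟨T, hT, hTS, hTs⟩ := h.frequently (inter_mem (inter_mem hS hK₀) hex)
      have := h.neBot
      obtain ⟨x, hx⟩ := this.nonempty_of_mem hT
      obtain ⟨⟨_, hx1⟩, hx2⟩ := hTS hx
      obtain ⟨z, hzK, hz⟩ := hK x hx1 hx2
      have hag : ∀ i < n, x i = Function.update x n z i := by
        intro i hi
        rw [Function.update_of_ne (by omega)]
      refine ⟨Function.update x n z, (hTS (hTs x _ hag hx)).1.1, mem_principal.1 hS' ⟨?_, ?_⟩⟩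
      · simp only [Function.update_self]
        exact hs z x _ hag hz
      · simpa using hzK
    · intro i h1 h2
      obtain rfl : i = n := by omega
      refine ⟨K, ?_⟩
      exact mem_inf_of_right (mem_principal.2 fun x hx => hx.2)
  · exact mem_inf_of_right (mem_principal.2 fun x hx => hx.1)

/-- boundedness of every coordinate -/
theorem dense_bounded {F : Filter (ℕ → M)} {k : ℕ} (hF : IsGood F k) (j : ℕ) :
    ∃ G ≤ F, ∃ k', IsGood G k' ∧ ∃ K : M, ∀ᶠ x in G, Mem (x j) K := by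
  obtain ⟨G, hGF, hG⟩ := hF.extendDim hM (max k (j + 1)) (le_max_left _ _)
  exact ⟨G, hGF, _, hG, hG.bdd j (lt_of_lt_of_le (Nat.lt_succ_self j) (le_max_right _ _))⟩

/-- idealization -/
theorem dense_ideal {F : Filter (ℕ → M)} {k : ℕ} (hF : IsGood F k) {R : M → M → Prop}
    (hR : Dfn2 R) (A X : M)
    (hfs : ∀ a : M, IsFinite a → Sub a A → ∃ x : M, Mem x X ∧ ∀ y : M, Mem y a → R x y) :
    ∃ G ≤ F, ∃ k', IsGood G k' ∧ ∃ m : ℕ, (∀ᶠ x in G, Mem (x m) X) ∧
      ∀ y : M, Mem y A → ∀ᶠ x in G, R (x m) y := by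
  let D : (Unit → M) → Prop := fun d => IsFinite (d ()) ∧ Sub (d ()) A
  let T : (Unit → M) → (ℕ → M) → Prop := fun d x => Mem (x k) X ∧
    ∀ y : M, Mem y (d ()) → R (x k) y
  have hdir : ∀ d, D d → ∀ d', D d' → ∃ d'', D d'' ∧ {x | T d'' x} ⊆ {x | T d x} ∧
      {x | T d'' x} ⊆ {x | T d' x} := by
    rintro d ⟨hd1, hd2⟩ d' ⟨hd1', hd2'⟩
    obtain ⟨u, hu⟩ := hM.exists_union2 (d ()) (d' ())
    refine ⟨fun _ => u, ⟨hM.fin_union hd1 hd1' u hu, ?_⟩, ?_, ?_⟩
    · intro z hz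
      rcases (hu z).1 hz with h | h
      · exact hd2 z h
      · exact hd2' z h
    · rintro x ⟨h1, h2⟩
      exact ⟨h1, fun y hy => h2 y ((hu y).2 (Or.inl hy))⟩
    · rintro x ⟨h1, h2⟩
      exact ⟨h1, fun y hy => h2 y ((hu y).2 (Or.inr hy))⟩
  obtain ⟨e, he⟩ := hM.exists_empty
  have hB := hasBasis_biInf_principal' hdir
    ⟨fun _ => e, hM.fin_empty he, fun z hz => absurd hz (he z)⟩
  set H : Filter (ℕ → M) := ⨅ (i) (_ : D i), 𝓟 {x | T i x} with hH
  refine ⟨F ⊓ H, inf_le_left, k + 1, ?_, k, ?_, ?_⟩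
  · refine hF.inf (Nat.le_succ k) (D := D) (T := T) ?_ ?_ hB ?_ ?_ ?_
    · exact .and (.isFinite (.var _)) (.sub (.var _) (.const _))
    · exact .and (.mem (.var _) (.const _)) (.all (.imp (.mem (.var _) (.var _))
        (.app2 hR (.var _) (.var _))))
    · rintro d x y hxy ⟨h1, h2⟩
      have hk : x k = y k := hxy k (Nat.lt_succ_self k)
      refine ⟨by rw [← hk]; exact h1, fun z hz => by rw [← hk]; exact h2 z hz⟩
    · rw [inf_neBot_iff]
      intro S hS S' hS'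
      obtain ⟨W, hW, hWS, hWs⟩ := hF.frequently hS
      obtain ⟨d, ⟨hd1, hd2⟩, hdS'⟩ := hB.mem_iff.1 hS'
      have := hF.neBot
      obtain ⟨x, hx⟩ := this.nonempty_of_mem hW
      obtain ⟨z, hzX, hz⟩ := hfs (d ()) hd1 hd2
      refine ⟨Function.update x k z, hWS (hWs x _ (fun i hi => ?_) hx), hdS' ⟨?_, ?_⟩⟩
      · rw [Function.update_of_ne (by omega)]
      · simpa using hzX
      · simpa using hz
    · intro i h1 h2
      obtain rfl : i = k := by omega
      refine ⟨X, ?_⟩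
      refine mem_inf_of_right ?_
      refine hB.mem_iff.2 ⟨fun _ => e, ⟨hM.fin_empty he, fun z hz => absurd hz (he z)⟩, ?_⟩
      exact fun x hx => hx.1
  · refine mem_inf_of_right ?_
    refine hB.mem_iff.2 ⟨fun _ => e, ⟨hM.fin_empty he, fun z hz => absurd hz (he z)⟩, ?_⟩
    exact fun x hx => hx.1
  · intro y hy
    refine mem_inf_of_right ?_
    obtain ⟨s, hs⟩ := hM.exists_insert e y
    refine hB.mem_iff.2 ⟨fun _ => s, ⟨hM.fin_insert (hM.fin_empty he) hs, ?_⟩, ?_⟩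
    · intro z hz
      rcases (hs z).1 hz with h | rfl
      · exact absurd h (he z)
      · exact hy
    · intro x hx
      exact hx.2 y ((hs y).2 (Or.inr rfl))

/-- elements of finite sets are decided -/
theorem dense_finite {F : Filter (ℕ → M)} {k : ℕ} (hF : IsGood F k) (j : ℕ) (a : M)
    (ha : IsFinite a) :
    ∃ G ≤ F, ∃ k', IsGood G k' ∧ ((∀ᶠ x in G, ¬ Mem (x j) a) ∨
      ∃ y : M, Mem y a ∧ ∀ᶠ x in G, x j = y) := by
  obtain ⟨F₁, hF₁F, hF₁⟩ := hF.extendDim hM (max k (j + 1)) (le_max_left _ _)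
  set n := max k (j + 1) with hn
  have hjn : j < n := lt_of_lt_of_le (Nat.lt_succ_self j) (le_max_right _ _)
  by_cases h : ∃ y : M, Mem y a ∧ IsGood (F₁ ⊓ 𝓟 {x | x j = y}) n
  · obtain ⟨y, hy, hG⟩ := h
    exact ⟨_, inf_le_left.trans hF₁F, n, hG, Or.inr ⟨y, hy, mem_inf_of_right
      (mem_principal_self _)⟩⟩
  push Not at h
  refine ⟨F₁, hF₁F, n, hF₁, Or.inl ?_⟩
  have h' : ∀ y : M, Mem y a → ∀ᶠ x in F₁, x j ≠ y := by
    intro y hy
    rcases hF₁.decide (Y := fun x => x j = y) (.eq (.var _) (.const _))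
      (fun x z hxz hx => by rw [← hxz j hjn]; exact hx) hM.nonempty with h1 | h1
    · exact h1
    · exact absurd h1 (h y hy)
  obtain ⟨β, C, Z, hC, hZ, hFB, hFs⟩ := hF₁.basis
  have key : ∀ a : M, IsFinite a → (∀ y : M, Mem y a → ∃ c : β → M, C c ∧ ∀ x : ℕ → M, Z c x →
      x j ≠ y) → ∃ c : β → M, C c ∧ ∀ x : ℕ → M, Z c x → ¬ Mem (x j) a := by
    have := hM.nonempty
    refine hM.fin_ind (P := fun a => (∀ y : M, Mem y a → ∃ c : β → M, C c ∧ ∀ x : ℕ → M, Z c x →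
      x j ≠ y) → ∃ c : β → M, C c ∧ ∀ x : ℕ → M, Z c x → ¬ Mem (x j) a) ?_ ?_ ?_
    · refine .imp (.all (.imp (.mem (.var _) (.var _)) (.exFun (.and ?_ (.allFun (.imp ?_
        (.not (.eq (.var _) (.var _))))))))) (.exFun (.and ?_ (.allFun (.imp ?_
          (.not (.mem (.var _) (.var _)))))))
      · exact hC.comp Sum.inr
      · exact hZ.comp (Sum.elim (fun i => Sum.inl (Sum.inr i)) (fun i => Sum.inr i) :
          β ⊕ ℕ → (Option Unit ⊕ β) ⊕ ℕ)
      · exact hC.comp Sum.inr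
      · exact hZ.comp (Sum.elim (fun i => Sum.inl (Sum.inr i)) (fun i => Sum.inr i) :
          β ⊕ ℕ → (Unit ⊕ β) ⊕ ℕ)
    · intro e he _
      obtain ⟨c, hc⟩ := hFB.ex_mem
      exact ⟨c, hc, fun x _ => he _⟩
    · intro a ha ih y b hb hyp
      obtain ⟨c, hc, hc'⟩ := ih (fun z hz => hyp z ((hb z).2 (Or.inl hz)))
      obtain ⟨d, hd, hd'⟩ := hyp y ((hb y).2 (Or.inr rfl))
      obtain ⟨c'', hc'', hsub⟩ := hFB.mem_iff.1 (inter_mem (hFB.mem_of_mem hc) (hFB.mem_of_mem hd))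
      refine ⟨c'', hc'', fun x hx hxb => ?_⟩
      rcases (hb _).1 hxb with h | h
      · exact hc' x (hsub hx).1 h
      · exact hd' x (hsub hx).2 h
  obtain ⟨c, hc, hc'⟩ := key a ha (fun y hy => by
    obtain ⟨c, hc, hc'⟩ := hFB.mem_iff.1 (h' y hy)
    exact ⟨c, hc, fun x hx => hc' hx⟩)
  exact hFB.mem_iff.2 ⟨c, hc, fun x hx => hc' x hx⟩

/-- standard parts of sets of natural numbers -/
theorem dense_standardPart {F : Filter (ℕ → M)} {k : ℕ} (hF : IsGood F k) (j : ℕ) {w : M}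
    (hw : IsOmega w) :
    ∃ G ≤ F, ∃ k', IsGood G k' ∧ ∃ B : M, Sub B w ∧ ∀ m : M, Mem m w →
      ∀ᶠ x in G, (Mem m (x j) ↔ Mem m B) := by
  obtain ⟨F₁, hF₁F, hF₁⟩ := hF.extendDim hM (max k (j + 1)) (le_max_left _ _)
  set n := max k (j + 1) with hn
  have hjn : j < n := lt_of_lt_of_le (Nat.lt_succ_self j) (le_max_right _ _)
  have hne := hM.nonempty
  obtain ⟨β, C, Z, hC, hZ, hFB, hFs⟩ := hF₁.basis
  let T : M → M → Prop := fun D n => ∀ c : β → M, C c → ∃ x : ℕ → M, Z c x ∧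
    (∀ z : M, Mem z n → (Mem z (x j) ↔ Mem z D)) ∧ Mem n (x j)
  have hT : Dfn2 T := by
    refine .allFun (.imp (hC.comp Sum.inr) (.exFun (.and ?_ (.and (.all (.imp
      (.mem (.var _) (.var _)) (.iff (.mem (.var _) (.var _)) (.mem (.var _) (.var _)))))
      (.mem (.var _) (.var _))))))
    exact hZ.comp (Sum.elim (fun i => Sum.inl (Sum.inr i)) (fun i => Sum.inr i) :
      β ⊕ ℕ → (Option Unit ⊕ β) ⊕ ℕ)
  obtain ⟨B, hBw, hB⟩ := hM.exists_bits hw hT (by
    intro k hk D D' hag h c hc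
    obtain ⟨x, hx, h1, h2⟩ := h c hc
    exact ⟨x, hx, fun z hz => (h1 z hz).trans (hag z hz), h2⟩)
  have hpos : ∀ n : M, Mem n w → ∀ c : β → M, C c → ∃ x : ℕ → M, Z c x ∧
      ∀ z : M, Mem z n → (Mem z (x j) ↔ Mem z B) := by
    refine hM.omega_ind hw (P := fun n => ∀ c : β → M, C c → ∃ x : ℕ → M, Z c x ∧
      ∀ z : M, Mem z n → (Mem z (x j) ↔ Mem z B)) ?_ ?_ ?_
    · refine .allFun (.imp (hC.comp Sum.inr) (.exFun (.and ?_ (.all (.imp
        (.mem (.var _) (.var _)) (.iff (.mem (.var _) (.var _)) (.mem (.var _) (.const _))))))))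
      exact hZ.comp (Sum.elim (fun i => Sum.inl (Sum.inr i)) (fun i => Sum.inr i) :
        β ⊕ ℕ → (Unit ⊕ β) ⊕ ℕ)
    · intro e he c hc
      have := hF₁.neBot
      obtain ⟨x, hx⟩ := hFB.neBot_iff.1 this hc
      exact ⟨x, hx, fun z hz => absurd hz (he z)⟩
    · intro m hm ih m' hm' c hc
      by_cases hTm : T B m
      · obtain ⟨x, hx, h1, h2⟩ := hTm c hc
        refine ⟨x, hx, fun z hz => ?_⟩
        rcases (hm' z).1 hz with h | rfl
        · exact h1 z h
        · exact ⟨fun _ => (hB z hm).2 hTm, fun _ => h2⟩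
      · have hTm' := hTm
        simp only [T] at hTm
        push Not at hTm
        obtain ⟨c₀, hc₀, hc₀'⟩ := hTm
        obtain ⟨c'', hc'', hsub⟩ := hFB.mem_iff.1
          (inter_mem (hFB.mem_of_mem hc) (hFB.mem_of_mem hc₀))
        obtain ⟨x, hx, h1⟩ := ih c'' hc''
        refine ⟨x, (hsub hx).1, fun z hz => ?_⟩
        rcases (hm' z).1 hz with h | rfl
        · exact h1 z h
        · have h2 := hc₀' x (hsub hx).2 h1
          exact ⟨fun h => absurd h h2, fun h => absurd ((hB z hm).1 h) hTm'⟩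
  let D : (Unit → M) → Prop := fun d => Mem (d ()) w
  let S : (Unit → M) → (ℕ → M) → Prop := fun d x => ∀ z : M, Mem z (d ()) →
    (Mem z (x j) ↔ Mem z B)
  have hdir : ∀ d, D d → ∀ d', D d' → ∃ d'', D d'' ∧ {x | S d'' x} ⊆ {x | S d x} ∧
      {x | S d'' x} ⊆ {x | S d' x} := by
    intro d hd d' hd'
    obtain ⟨m, hm, h1, h2⟩ := hM.nat_max hw hd hd'
    exact ⟨fun _ => m, hm, fun x hx z hz => hx z (h1 z hz), fun x hx z hz => hx z (h2 z hz)⟩
  obtain ⟨e, he⟩ := hM.exists_empty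
  have hHB := hasBasis_biInf_principal' hdir ⟨fun _ => e, hM.empty_mem_omega hw he⟩
  set H : Filter (ℕ → M) := ⨅ (i) (_ : D i), 𝓟 {x | S i x} with hH
  refine ⟨F₁ ⊓ H, inf_le_left.trans hF₁F, n, ?_, B, hBw, ?_⟩
  · refine hF₁.inf le_rfl (D := D) (T := S) (.mem (.var _) (.const _)) ?_ hHB ?_ ?_
      (fun i h1 h2 => absurd h2 (not_lt.2 h1))
    · exact .all (.imp (.mem (.var _) (.var _)) (.iff (.mem (.var _) (.var _))
        (.mem (.var _) (.const _))))
    · intro d x y hxy hx z hz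
      rw [← hxy j hjn]
      exact hx z hz
    · rw [inf_neBot_iff]
      intro U hU U' hU'
      obtain ⟨c, hc, hcU⟩ := hFB.mem_iff.1 hU
      obtain ⟨d, hd, hdU'⟩ := hHB.mem_iff.1 hU'
      obtain ⟨x, hx, hx'⟩ := hpos (d ()) hd c hc
      exact ⟨x, hcU hx, hdU' hx'⟩
  · intro m hm
    obtain ⟨m', hm'⟩ := hM.exists_succ m
    refine mem_inf_of_right (hHB.mem_iff.2 ⟨fun _ => m', hM.succ_mem_omega hw hm hm', ?_⟩)
    intro x hx
    exact hx m ((hm' m).2 (Or.inr rfl))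

end Pool.Agent.Work.MP_d5d48f_lc
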