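import Pool.Agent.Work.MP_d5d48f_lc.Bits

/-!
Definable filter bases over a model of ZF, and the density lemmas.
-/

universe u v w

namespace Pool.Agent.Work.MP_d5d48f_lc

open FirstOrder FirstOrder.Language Filter

section

variable {M : Type u} [LSet.Structure M]

theorem Dfn.comp {α : Type v} {β : Type w} {P : (α → M) → Prop} (hP : Dfn P) (g : α → β) :
    Dfn (fun w : β → M => P (fun i => w (g i))) :=
  hP.subst (fun w i => w (g i)) (fun _ => .var _)

/-- a definable predicate depends on finitely many coordinates -/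
theorem Dfn.support {α : Type v} {P : (α → M) → Prop} (hP : Dfn P) :
    ∃ s : Finset α, ∀ x y : α → M, (∀ i ∈ s, x i = y i) → P x → P y := by
  classical
  obtain ⟨φ, hφ⟩ := hP
  refine ⟨φ.freeVarFinset.toRight, fun x y hxy hx => ?_⟩
  rw [← hφ] at hx ⊢
  let ψ : LSet.Formula φ.freeVarFinset := φ.restrictFreeVar id
  have h1 : ∀ z : α → M, ψ.Realize (fun i => Sum.elim id z i) ↔ φ.Realize (Sum.elim id z) := by
    intro z
    exact BoundedFormula.realize_restrictFreeVar (φ := φ) (f := id)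
      (v := fun i : φ.freeVarFinset => (Sum.elim id z i : M)) (xs := default)
      (v' := Sum.elim id z) (fun _ => rfl)
  rw [← h1] at hx ⊢
  convert hx using 2 with i
  obtain ⟨(c | a), hi⟩ := i
  · rfl
  · exact (hxy a (by simpa using hi)).symm

theorem Dfn.support_nat {P : (ℕ → M) → Prop} (hP : Dfn P) :
    ∃ m : ℕ, ∀ x y : ℕ → M, (∀ i < m, x i = y i) → P x → P y := by
  obtain ⟨s, hs⟩ := hP.support
  refine ⟨s.sup id + 1, fun x y hxy hx => hs x y (fun i hi => hxy i ?_) hx⟩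
  have : i ≤ s.sup id := Finset.le_sup (f := id) hi
  omega

theorem Dfn.support_option {Q : M → (ℕ → M) → Prop}
    (hQ : Dfn (fun w : Option ℕ → M => Q (w none) (fun i => w (some i)))) :
    ∃ m : ℕ, ∀ (z : M) (x y : ℕ → M), (∀ i < m, x i = y i) → Q z x → Q z y := by
  obtain ⟨s, hs⟩ := hQ.support
  let t : Finset ℕ := s.biUnion (fun o => o.elim ∅ (fun i => {i}))
  refine ⟨t.sup id + 1, fun z x y hxy hx => ?_⟩
  refine hs (fun o => o.elim z x) (fun o => o.elim z y) (fun o ho => ?_) hx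
  cases o with
  | none => rfl
  | some i =>
    refine hxy i ?_
    have hi : i ∈ t := Finset.mem_biUnion.2 ⟨some i, ho, by simp⟩
    have : i ≤ t.sup id := Finset.le_sup (f := id) hi
    omega

/-- The filter `F` on assignments has a base which is a definable family of sets depending on the
first `k` coordinates only, and these coordinates are bounded. -/
structure IsGood (F : Filter (ℕ → M)) (k : ℕ) : Prop where
  neBot : F.NeBot
  basis : ∃ (β : Type) (C : (β → M) → Prop) (Z : (β → M) → (ℕ → M) → Prop), Dfn C ∧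
    Dfn (fun w : β ⊕ ℕ → M => Z (fun i => w (Sum.inl i)) (fun i => w (Sum.inr i))) ∧
    F.HasBasis C (fun c => {x | Z c x}) ∧
    ∀ (c : β → M) (x y : ℕ → M), (∀ i < k, x i = y i) → Z c x → Z c y
  bdd : ∀ i < k, ∃ K : M, ∀ᶠ x in F, Mem (x i) K

theorem IsGood.inf {F : Filter (ℕ → M)} {k k' : ℕ} (hF : IsGood F k) (hk : k ≤ k') {γ : Type}
    {D : (γ → M) → Prop} {T : (γ → M) → (ℕ → M) → Prop} (hD : Dfn D)
    (hT : Dfn (fun w : γ ⊕ ℕ → M => T (fun i => w (Sum.inl i)) (fun i => w (Sum.inr i))))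
    {G : Filter (ℕ → M)} (hG : G.HasBasis D (fun d => {x | T d x}))
    (hs : ∀ (d : γ → M) (x y : ℕ → M), (∀ i < k', x i = y i) → T d x → T d y)
    (hne : (F ⊓ G).NeBot)
    (hb : ∀ i, k ≤ i → i < k' → ∃ K : M, ∀ᶠ x in F ⊓ G, Mem (x i) K) :
    IsGood (F ⊓ G) k' := by
  obtain ⟨β, C, Z, hC, hZ, hFB, hFs⟩ := hF.basis
  refine ⟨hne, ⟨β ⊕ γ, fun w => C (fun i => w (Sum.inl i)) ∧ D (fun i => w (Sum.inr i)),
    fun w x => Z (fun i => w (Sum.inl i)) x ∧ T (fun i => w (Sum.inr i)) x, ?_, ?_, ?_, ?_⟩, ?_⟩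
  · exact (hC.comp Sum.inl).and (hD.comp Sum.inr)
  · refine .and ?_ ?_
    · exact hZ.comp (Sum.elim (fun i => Sum.inl (Sum.inl i)) (fun i => Sum.inr i) :
        β ⊕ ℕ → (β ⊕ γ) ⊕ ℕ)
    · exact hT.comp (Sum.elim (fun i => Sum.inl (Sum.inr i)) (fun i => Sum.inr i) :
        γ ⊕ ℕ → (β ⊕ γ) ⊕ ℕ)
  · exact (hFB.inf hG).comp_equiv (Equiv.sumArrowEquivProdArrow β γ M)
  · rintro c x y hxy ⟨h1, h2⟩
    exact ⟨hFs _ x y (fun i hi => hxy i (lt_of_lt_of_le hi hk)) h1, hs _ x y hxy h2⟩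
  · intro i hi
    by_cases h : i < k
    · obtain ⟨K, hK⟩ := hF.bdd i h
      exact ⟨K, hK.filter_mono inf_le_left⟩
    · exact hb i (not_lt.1 h) hi

/-- one definable set -/
theorem IsGood.inf_principal {F : Filter (ℕ → M)} {k k' : ℕ} (hF : IsGood F k) (hk : k ≤ k')
    {Y : (ℕ → M) → Prop} (hY : Dfn Y)
    (hs : ∀ x y : ℕ → M, (∀ i < k', x i = y i) → Y x → Y y)
    (hne : (F ⊓ 𝓟 {x | Y x}).NeBot)
    (hb : ∀ i, k ≤ i → i < k' → ∃ K : M, ∀ᶠ x in F ⊓ 𝓟 {x | Y x}, Mem (x i) K)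
    (hM : Nonempty M) :
    IsGood (F ⊓ 𝓟 {x | Y x}) k' := by
  refine hF.inf hk (γ := Empty) (D := fun _ => True) (T := fun _ x => Y x) (.const True)
    (hY.comp Sum.inr) ?_ (fun _ => hs) hne hb
  refine ⟨fun t => ?_⟩
  simp only [mem_principal, true_and]
  exact ⟨fun h => ⟨Empty.elim, h⟩, fun ⟨_, h⟩ => h⟩

theorem IsGood.frequently {F : Filter (ℕ → M)} {k : ℕ} (hF : IsGood F k) {S : Set (ℕ → M)}
    (hS : S ∈ F) : ∃ S' ∈ F, S' ⊆ S ∧ ∀ x y : ℕ → M, (∀ i < k, x i = y i) → x ∈ S' → y ∈ S' := by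
  obtain ⟨β, C, Z, hC, hZ, hFB, hFs⟩ := hF.basis
  obtain ⟨c, hc, hcS⟩ := hFB.mem_iff.1 hS
  exact ⟨{x | Z c x}, hFB.mem_of_mem hc, hcS, fun x y hxy hx => hFs c x y hxy hx⟩

/-- decide a definable set -/
theorem IsGood.decide {F : Filter (ℕ → M)} {k : ℕ} (hF : IsGood F k)
    {Y : (ℕ → M) → Prop} (hY : Dfn Y)
    (hs : ∀ x y : ℕ → M, (∀ i < k, x i = y i) → Y x → Y y) (hM : Nonempty M) :
    (∀ᶠ x in F, ¬ Y x) ∨ IsGood (F ⊓ 𝓟 {x | Y x}) k := by
  by_cases h : (F ⊓ 𝓟 {x | Y x}).NeBot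
  · exact Or.inr (hF.inf_principal le_rfl hY hs h (fun i h1 h2 => absurd h2 (not_lt.2 h1)) hM)
  · left
    rw [not_neBot, inf_principal_eq_bot] at h
    exact h

end

section

variable {M : Type u} [LSet.Structure M] (hM : IsZF M)

include hM

theorem IsGood.extendDim {F : Filter (ℕ → M)} {k : ℕ} (hF : IsGood F k) (k' : ℕ) (hk : k ≤ k') :
    ∃ G ≤ F, IsGood G k' := by
  induction k' with
  | zero =>
    obtain rfl : k = 0 := by omega
    exact ⟨F, le_rfl, hF⟩
  | succ n ih =>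
    by_cases hkn : k = n + 1
    · subst hkn
      exact ⟨F, le_rfl, hF⟩
    obtain ⟨G, hGF, hG⟩ := ih (by omega)
    obtain ⟨e, he⟩ := hM.exists_empty
    obtain ⟨K, hK⟩ := hM.exists_pair e e
    refine ⟨G ⊓ 𝓟 {x | x n = e}, inf_le_left.trans hGF, ?_⟩
    refine hG.inf_principal (Nat.le_succ n) (.eq (.var _) (.const _)) ?_ ?_ ?_ hM.nonempty
    · intro x y hxy hx
      rw [← hxy n (Nat.lt_succ_self n)]
      exact hx
    · rw [inf_neBot_iff]
      intro S hS S' hS'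
      obtain ⟨T, hT, hTS, hTs⟩ := hG.frequently hS
      have := hG.neBot
      obtain ⟨x, hx⟩ := this.nonempty_of_mem hT
      refine ⟨Function.update x n e, hTS (hTs x _ (fun i hi => ?_) hx), ?_⟩
      · rw [Function.update_of_ne (by omega)]
      · apply mem_principal.1 hS'
        simp
    · intro i h1 h2
      obtain rfl : i = n := by omega
      refine ⟨K, ?_⟩
      have : ∀ᶠ x in (G ⊓ 𝓟 {x : ℕ → M | x i = e}), x i = e := by
        refine mem_inf_of_right ?_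
        exact mem_principal_self _
      filter_upwards [this] with x hx
      exact (hK _).2 (Or.inl hx)

end

end Pool.Agent.Work.MP_d5d48f_lc
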