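import Pool.Agent.Work.MP_d5d48f_lc.Density

/-!
A generic ultrafilter.
-/

universe u v w

namespace Pool.Agent.Work.MP_d5d48f_lc

open FirstOrder FirstOrder.Language Filter

variable {M : Type u} [LSet.Structure M]

/-- the conditions -/
structure Cond (M : Type u) [LSet.Structure M] : Type u where
  /-- the filter -/
  filter : Filter (ℕ → M)
  /-- it is good -/
  good : ∃ k, IsGood filter k

instance : Preorder (Cond M) where
  le F G := G.1 ≤ F.1
  le_refl F := le_refl F.1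
  le_trans F G H h1 h2 := le_trans h2 h1

theorem exists_isGood (hM : IsZF M) : ∃ F : Filter (ℕ → M), IsGood F 0 := by
  have := hM.nonempty
  refine ⟨⊤, inferInstance, ⟨Empty, fun _ => True, fun _ _ => True, .const True, .const True, ?_,
    ?_⟩, fun i hi => absurd hi (by omega)⟩
  · refine ⟨fun t => ?_⟩
    simp only [mem_top, true_and]
    constructor
    · rintro rfl
      exact ⟨Empty.elim, fun _ _ => trivial⟩
    · rintro ⟨_, h⟩
      ext x
      exact ⟨fun _ => trivial, fun _ => h trivial⟩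
  · intro _ _ _ _ _
    trivial

theorem exists_generic (hM : IsZF M) {ι : Type v} [Countable ι] (D : ι → Filter (ℕ → M) → Prop)
    (hdown : ∀ i F G, G ≤ F → D i F → D i G)
    (hdense : ∀ i F k, IsGood F k → ∃ G ≤ F, ∃ k', IsGood G k' ∧ D i G) :
    ∃ U : Ultrafilter (ℕ → M), ∀ i, D i U := by
  have := Encodable.ofCountable ι
  obtain ⟨F₀, hF₀⟩ := exists_isGood hM
  let 𝒟 : ι → Order.Cofinal (Cond M) := fun i =>
    { carrier := {F | D i F.1}
      isCofinal := by
        rintro ⟨F, k, hF⟩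
        obtain ⟨G, hGF, k', hG, hD⟩ := hdense i F k hF
        exact ⟨⟨G, k', hG⟩, hD, hGF⟩ }
  let s : ℕ → Cond M := Order.sequenceOfCofinals ⟨F₀, ⟨0, hF₀⟩⟩ 𝒟
  have hmono : Monotone s := Order.sequenceOfCofinals.monotone _ _
  have hdir : Directed (· ≥ ·) (fun n => (s n).1) := by
    intro m n
    refine ⟨max m n, hmono (le_max_left _ _), hmono (le_max_right _ _)⟩
  have hne : NeBot (⨅ n, (s n).1) := by
    refine iInf_neBot_of_directed' hdir (fun n => ?_)
    obtain ⟨k, hk⟩ := (s n).2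
    exact hk.neBot
  refine ⟨Ultrafilter.of (⨅ n, (s n).1), fun i => ?_⟩
  have h1 : D i (s (Encodable.encode i + 1)).1 :=
    Order.sequenceOfCofinals.encode_mem (⟨F₀, ⟨0, hF₀⟩⟩ : Cond M) 𝒟 i
  exact hdown i _ _ ((Ultrafilter.of_le _).trans (iInf_le _ _)) h1

/-- the properties of the generic ultrafilter -/
structure IsGeneric (U : Ultrafilter (ℕ → M)) : Prop where
  witness : ∀ Q : M → (ℕ → M) → Prop,
    Dfn (fun w : Option ℕ → M => Q (w none) (fun i => w (some i))) →
    (∀ᶠ x in (U : Filter (ℕ → M)), ∃ z : M, Q z x) →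
      ∃ m : ℕ, ∀ᶠ x in (U : Filter (ℕ → M)), Q (x m) x
  bounded : ∀ j : ℕ, ∃ K : M, ∀ᶠ x in (U : Filter (ℕ → M)), Mem (x j) K
  ideal : ∀ R : M → M → Prop, Dfn2 R → ∀ A X : M,
    (∀ a : M, IsFinite a → Sub a A → ∃ x : M, Mem x X ∧ ∀ y : M, Mem y a → R x y) →
      ∃ m : ℕ, (∀ᶠ x in (U : Filter (ℕ → M)), Mem (x m) X) ∧
        ∀ y : M, Mem y A → ∀ᶠ x in (U : Filter (ℕ → M)), R (x m) y
  finite : ∀ (j : ℕ) (a : M), IsFinite a → (∀ᶠ x in (U : Filter (ℕ → M)), Mem (x j) a) →
    ∃ y : M, Mem y a ∧ ∀ᶠ x in (U : Filter (ℕ → M)), x j = y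
  standardPart : ∀ (j : ℕ) (w : M), IsOmega w → ∃ B : M, Sub B w ∧ ∀ m : M, Mem m w →
      ∀ᶠ x in (U : Filter (ℕ → M)), (Mem m (x j) ↔ Mem m B)

instance : Countable (Σ l, LSet.Functions l) := by
  have : IsEmpty (Σ l, LSet.Functions l) := ⟨fun x => Empty.elim x.2⟩
  infer_instance

instance (l : ℕ) : Countable (MemRel l) := by
  have : Subsingleton (MemRel l) := ⟨fun a b => by cases a; cases b; rfl⟩
  infer_instance

instance : Countable LSet.Symbols := by
  have h1 : Countable (Σ l, LSet.Relations l) := by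
    have : ∀ l, Countable (LSet.Relations l) := fun l => inferInstanceAs (Countable (MemRel l))
    infer_instance
  unfold FirstOrder.Language.Symbols
  infer_instance

theorem exists_isGeneric [Countable M] (hM : IsZF M) :
    ∃ U : Ultrafilter (ℕ → M), IsGeneric U := by
  -- the five kinds of requirements
  let ι := LSet.Formula (M ⊕ Option ℕ) ⊕ (ℕ ⊕ ((LSet.Formula (M ⊕ Option Unit) × M × M) ⊕
    ((ℕ × M) ⊕ (ℕ × M))))
  let D : ι → Filter (ℕ → M) → Prop := fun i F =>
    match i with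
    | Sum.inl φ => (∀ᶠ x in F, ¬ ∃ z : M, φ.Realize (Sum.elim id (fun o : Option ℕ => o.elim z x)))
        ∨ ∃ m : ℕ, ∀ᶠ x in F, φ.Realize (Sum.elim id (fun o : Option ℕ => o.elim (x m) x))
    | Sum.inr (Sum.inl j) => ∃ K : M, ∀ᶠ x in F, Mem (x j) K
    | Sum.inr (Sum.inr (Sum.inl (φ, A, X))) =>
        (∀ a : M, IsFinite a → Sub a A → ∃ x : M, Mem x X ∧ ∀ y : M, Mem y a →
          φ.Realize (Sum.elim id (fun o : Option Unit => o.elim y (fun _ => x)))) →
        ∃ m : ℕ, (∀ᶠ x in F, Mem (x m) X) ∧ ∀ y : M, Mem y A → ∀ᶠ x in F,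
          φ.Realize (Sum.elim id (fun o : Option Unit => o.elim y (fun _ => x m)))
    | Sum.inr (Sum.inr (Sum.inr (Sum.inl (j, a)))) => IsFinite a →
        ((∀ᶠ x in F, ¬ Mem (x j) a) ∨ ∃ y : M, Mem y a ∧ ∀ᶠ x in F, x j = y)
    | Sum.inr (Sum.inr (Sum.inr (Sum.inr (j, w)))) => IsOmega w →
        ∃ B : M, Sub B w ∧ ∀ m : M, Mem m w → ∀ᶠ x in F, (Mem m (x j) ↔ Mem m B)
  obtain ⟨U, hU⟩ := exists_generic hM D (by
    rintro (φ | j | ⟨φ, A, X⟩ | ⟨j, a⟩ | ⟨j, w⟩) F G hGF h
    · rcases h with h | ⟨m, h⟩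
      · exact Or.inl (h.filter_mono hGF)
      · exact Or.inr ⟨m, h.filter_mono hGF⟩
    · obtain ⟨K, h⟩ := h
      exact ⟨K, h.filter_mono hGF⟩
    · intro hyp
      obtain ⟨m, h1, h2⟩ := h hyp
      exact ⟨m, h1.filter_mono hGF, fun y hy => (h2 y hy).filter_mono hGF⟩
    · intro hyp
      rcases h hyp with h | ⟨y, hy, h⟩
      · exact Or.inl (h.filter_mono hGF)
      · exact Or.inr ⟨y, hy, h.filter_mono hGF⟩
    · intro hyp
      obtain ⟨B, hB, h⟩ := h hyp
      exact ⟨B, hB, fun m hm => (h m hm).filter_mono hGF⟩) (by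
    rintro (φ | j | ⟨φ, A, X⟩ | ⟨j, a⟩ | ⟨j, w⟩) F k hF
    · refine dense_witness hM hF
        (Q := fun z x => φ.Realize (Sum.elim id (fun o : Option ℕ => o.elim z x))) ⟨φ, fun w => ?_⟩
      have : (fun o : Option ℕ => o.elim (w none) (fun i => w (some i))) = w := by
        funext o
        cases o <;> rfl
      beta_reduce
      rw [this]
    · exact dense_bounded hM hF j
    · by_cases hyp : (∀ a : M, IsFinite a → Sub a A → ∃ x : M, Mem x X ∧ ∀ y : M, Mem y a →
          φ.Realize (Sum.elim id (fun o : Option Unit => o.elim y (fun _ => x))))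
      · obtain ⟨G, hGF, k', hG, m, h⟩ := dense_ideal hM hF
          (R := fun x y => φ.Realize (Sum.elim id (fun o : Option Unit => o.elim y (fun _ => x))))
          ⟨φ, fun w => by
            have : (fun o : Option Unit => o.elim (w none) (fun _ => w (some ()))) = w := by
              funext o
              cases o <;> rfl
            beta_reduce
            rw [this]⟩ A X hyp
        exact ⟨G, hGF, k', hG, fun _ => ⟨m, h⟩⟩
      · exact ⟨F, le_rfl, k, hF, fun h => absurd h hyp⟩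
    · by_cases ha : IsFinite a
      · obtain ⟨G, hGF, k', hG, h⟩ := dense_finite hM hF j a ha
        exact ⟨G, hGF, k', hG, fun _ => h⟩
      · exact ⟨F, le_rfl, k, hF, fun h => absurd h ha⟩
    · by_cases hw : IsOmega w
      · obtain ⟨G, hGF, k', hG, h⟩ := dense_standardPart hM hF j hw
        exact ⟨G, hGF, k', hG, fun _ => h⟩
      · exact ⟨F, le_rfl, k, hF, fun h => absurd h hw⟩)
  refine ⟨U, ?_, ?_, ?_, ?_, ?_⟩
  · rintro Q ⟨φ, hφ⟩ hQ
    have hQ' : ∀ (z : M) (x : ℕ → M), φ.Realize (Sum.elim id (fun o : Option ℕ => o.elim z x)) ↔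
        Q z x := fun z x => hφ _
    rcases hU (Sum.inl φ) with h | ⟨m, h⟩
    · simp only [hQ'] at h
      obtain ⟨x, hx, hx'⟩ := (h.and hQ).exists
      exact absurd hx' hx
    · simp only [hQ'] at h
      exact ⟨m, h⟩
  · intro j
    exact hU (Sum.inr (Sum.inl j))
  · rintro R ⟨φ, hφ⟩ A X hyp
    have hR' : ∀ (x y : M), φ.Realize (Sum.elim id (fun o : Option Unit => o.elim y (fun _ => x)))
        ↔ R x y := fun x y => hφ _
    have h := hU (Sum.inr (Sum.inr (Sum.inl (φ, A, X))))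
    simp only [D, hR'] at h
    exact h hyp
  · intro j a ha h
    rcases hU (Sum.inr (Sum.inr (Sum.inr (Sum.inl (j, a))))) ha with h' | h'
    · obtain ⟨x, hx, hx'⟩ := (h.and h').exists
      exact absurd hx hx'
    · exact h'
  · intro j w hw
    exact hU (Sum.inr (Sum.inr (Sum.inr (Sum.inr (j, w))))) hw

end Pool.Agent.Work.MP_d5d48f_lc
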