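import Pool.Agent.Work.MP_d5d48f_lc.Model

/-!
The extension satisfies BSPT'.
-/

universe u v w

namespace Pool.Agent.Work.MP_d5d48f_lc

open FirstOrder FirstOrder.Language Filter

theorem UDef.formula {α : Type v} {β : Type w} (φ : LSet.Formula β) (g : β → α) :
    UDef (fun (K : Type u) _ (w : α → K) => φ.Realize (fun b => w (g b))) :=
  ⟨φ.relabel g, fun K _ w => by rw [Formula.realize_relabel]; rfl⟩

theorem Dfn.formula {M : Type u} [LSet.Structure M] {α : Type v} {β : Type w}
    (φ : LSet.Formula β) (f : (α → M) → β → M) (hf : ∀ b, IsT (fun w => f w b)) :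
    Dfn (fun w => φ.Realize (f w)) := by
  have h : Dfn (fun w : β → M => φ.Realize w) :=
    ⟨φ.relabel Sum.inr, fun w => by rw [Formula.realize_relabel]; rfl⟩
  exact h.subst f hf

theorem definable₁_iff {N : Type u} [LSet.Structure N] {S D : Set N} (h : S.Definable₁ LSet D) :
    ∃ φ : LSet.Formula (S ⊕ Fin 1), ∀ x : N, x ∈ D ↔
      φ.Realize (Sum.elim (fun s : S => (s : N)) (fun _ => x)) := by
  unfold Set.Definable₁ at h
  rw [Set.definable_iff_exists_formula_sum] at h
  obtain ⟨φ, hφ⟩ := h
  refine ⟨φ, fun x => ?_⟩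
  have := Set.ext_iff.1 hφ (fun _ => x)
  exact this

theorem definable₂_iff {N : Type u} [LSet.Structure N] {S : Set N} {R : Set (N × N)}
    (h : S.Definable₂ LSet R) :
    ∃ φ : LSet.Formula (S ⊕ Fin 2), ∀ x y : N, (x, y) ∈ R ↔
      φ.Realize (Sum.elim (fun s : S => (s : N)) (![x, y])) := by
  unfold Set.Definable₂ at h
  rw [Set.definable_iff_exists_formula_sum] at h
  obtain ⟨φ, hφ⟩ := h
  refine ⟨φ, fun x y => ?_⟩
  have := Set.ext_iff.1 hφ ![x, y]
  exact this

section

variable {α : Type v} {A : Type w}

/-- substituting into a formula with parameters and one variable -/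
theorem UDef.formula1 (φ : LSet.Formula (A ⊕ Fin 1)) (g : A → α) (i : α) :
    UDef (fun (K : Type u) _ (w : α → K) =>
      φ.Realize (Sum.elim (fun a => w (g a)) (fun _ => w i))) := by
  refine (UDef.formula φ (Sum.elim g (fun _ => i))).congr (fun K _ w => ?_)
  have : (fun b : A ⊕ Fin 1 => w (Sum.elim g (fun _ => i) b)) =
      Sum.elim (fun a => w (g a)) (fun _ => w i) := by
    funext b
    cases b <;> rfl
  rw [this]

theorem UDef.formula2 (φ : LSet.Formula (A ⊕ Fin 2)) (g : A → α) (i j : α) :
    UDef (fun (K : Type u) _ (w : α → K) =>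
      φ.Realize (Sum.elim (fun a => w (g a)) (![w i, w j]))) := by
  refine (UDef.formula φ (Sum.elim g (![i, j]))).congr (fun K _ w => ?_)
  have : (fun b : A ⊕ Fin 2 => w (Sum.elim g (![i, j]) b)) =
      Sum.elim (fun a => w (g a)) (![w i, w j]) := by
    funext b
    rcases b with b | b
    · rfl
    · fin_cases b <;> rfl
  rw [this]

theorem dfn1_formula {M : Type u} [LSet.Structure M] (φ : LSet.Formula (A ⊕ Fin 1)) (w : A → M) :
    Dfn1 (fun x : M => φ.Realize (Sum.elim w (fun _ => x))) := by
  refine Dfn.formula φ (fun v : Unit → M => Sum.elim w (fun _ => v ())) ?_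
  rintro (b | b)
  · exact .const _
  · exact .var _

theorem dfn2_formula {M : Type u} [LSet.Structure M] (φ : LSet.Formula (A ⊕ Fin 2)) (w : A → M) :
    Dfn2 (fun x y : M => φ.Realize (Sum.elim w (![x, y]))) := by
  refine Dfn.formula φ (fun v : Option Unit → M => Sum.elim w (![v (some ()), v none])) ?_
  rintro (b | b)
  · exact .const _
  · fin_cases b
    · exact .var _
    · exact .var _

end

section

variable {M : Type u} [LSet.Structure M] (hM : IsZF M) {U : Ultrafilter (ℕ → M)}
  (hU : IsGeneric U)

include hM hU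

theorem coordSub_isZF : IsZF (coordSub U) := by
  have := hM.nonempty
  constructor
  · have hP : UDef (α := Empty) (fun (K : Type u) _ (_ : Empty → K) =>
        ∀ x y : K, (∀ z : K, Mem z x ↔ Mem z y) → x = y) :=
      .all (.all (.imp (.all (.iff (.mem none (some (some none))) (.mem none (some none))))
        (.eq (some none) none)))
    exact hP.transfer hU (fun _ => hM.extensionality) Empty.elim
  · have hP : UDef (α := Empty) (fun (K : Type u) _ (_ : Empty → K) =>
        ∀ x : K, (∃ y : K, Mem y x) → ∃ y : K, Mem y x ∧ ∀ z : K, Mem z x → ¬ Mem z y) :=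
      .all (.imp (.ex (.mem none (some none))) (.ex (.and (.mem none (some none))
        (.all (.imp (.mem none (some (some none))) (.not (.mem none (some none))))))))
    exact hP.transfer hU (fun _ => hM.foundation) Empty.elim
  · have hP : UDef (α := Empty) (fun (K : Type u) _ (_ : Empty → K) =>
        ∀ a b : K, ∃ p : K, ∀ z : K, Mem z p ↔ (z = a ∨ z = b)) :=
      .all (.all (.ex (.all (.iff (.mem none (some none)) (.or (.eq none (some (some (some none))))
        (.eq none (some (some none))))))))
    exact hP.transfer hU (fun _ => hM.pairing) Empty.elim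
  · have hP : UDef (α := Empty) (fun (K : Type u) _ (_ : Empty → K) =>
        ∀ x : K, ∃ u : K, ∀ z : K, Mem z u ↔ ∃ y : K, Mem y x ∧ Mem z y) :=
      .all (.ex (.all (.iff (.mem none (some none)) (.ex (.and
        (.mem none (some (some (some none)))) (.mem (some none) none))))))
    exact hP.transfer hU (fun _ => hM.union) Empty.elim
  · have hP : UDef (α := Empty) (fun (K : Type u) _ (_ : Empty → K) =>
        ∀ x : K, ∃ p : K, ∀ z : K, Mem z p ↔ Sub z x) :=
      .all (.ex (.all (.iff (.mem none (some none)) (.sub none (some (some none))))))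
    exact hP.transfer hU (fun _ => hM.powerset) Empty.elim
  · have hP : UDef (α := Empty) (fun (K : Type u) _ (_ : Empty → K) =>
        ∃ w : K, IsInductive w) := .ex (.isInductive none)
    exact hP.transfer hU (fun _ => hM.infinity) Empty.elim
  · intro D hD
    obtain ⟨φ, hφ⟩ := definable₁_iff hD
    have hP : UDef (α := (Set.univ : Set (coordSub U))) (fun (K : Type u) _ (w : _ → K) =>
        ∀ a : K, ∃ b : K, ∀ x : K, Mem x b ↔ (Mem x a ∧
          φ.Realize (Sum.elim (fun s => w s) (fun _ => x)))) :=
      .all (.ex (.all (.iff (.mem none (some none)) (.and (.mem none (some (some none)))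
        (.formula1 φ _ _)))))
    have h := hP.transfer hU (fun w => hM.sep (dfn1_formula φ w)) (fun s => (s : coordSub U))
    intro a
    obtain ⟨b, hb⟩ := h a
    exact ⟨b, fun x => by rw [hb, hφ]⟩
  · intro R hR a ha
    obtain ⟨φ, hφ⟩ := definable₂_iff hR
    have hP : UDef (α := (Set.univ : Set (coordSub U))) (fun (K : Type u) _ (w : _ → K) =>
        ∀ a : K, (∀ x : K, Mem x a → ∃! y : K, φ.Realize (Sum.elim (fun s => w s) (![x, y]))) →
          ∃ b : K, ∀ y : K, Mem y b ↔ ∃ x : K, Mem x a ∧
            φ.Realize (Sum.elim (fun s => w s) (![x, y]))) :=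
      .all (.imp (.all (.imp (.mem none (some none)) (.exUnique (.formula2 φ _ _ _))))
        (.ex (.all (.iff (.mem none (some none)) (.ex (.and (.mem none (some (some (some none))))
          (.formula2 φ _ _ _)))))))
    have h := hP.transfer hU (fun w => hM.repl (dfn2_formula φ w)) (fun s => (s : coordSub U))
    obtain ⟨b, hb⟩ := h a (by simpa only [hφ] using ha)
    exact ⟨b, fun y => by rw [hb]; simp only [hφ]⟩

theorem isBSPT' [Nonempty M] : IsBSPT' (Set.range (std hU : M → coordSub U)) := by
  -- the parameters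
  obtain ⟨c, hc⟩ : ∃ c : Set.range (std hU : M → coordSub U) → M, ∀ s, std hU (c s) = s :=
    ⟨fun s => Classical.choose s.2, fun s => Classical.choose_spec s.2⟩
  have hc' : (fun s : Set.range (std hU : M → coordSub U) => std hU (c s)) =
      fun s : Set.range (std hU : M → coordSub U) => (s : coordSub U) := funext hc
  -- natural numbers
  have homega : ∀ w : coordSub U, IsOmega w → ∃ w₀ : M, IsOmega w₀ ∧ std hU w₀ = w := by
    intro w hw
    obtain ⟨w₀, hw₀⟩ := hM.exists_omega
    have h := ((UDef.isOmega (α := Unit) ()).std hU (fun _ => w₀)).2 hw₀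
    exact ⟨w₀, hw₀, (coordSub_isZF hM hU).omega_unique h hw⟩
  have hmem : ∀ a b : M, Mem (std hU a) (std hU b) ↔ Mem a b := fun a b =>
    (UDef.mem (α := Bool) true false).std hU (fun i => if i then a else b)
  have hmem' : ∀ (n : coordSub U) (b : M), Mem n (std hU b) ↔
      ∀ᶠ y in (U : Filter (ℕ → M)), Mem (y (idx n)) b := by
    intro n b
    exact (UDef.mem (α := Bool) true false).realize_coordSub hU (fun i => if i then n else std hU b)
      (fun i y => if i then y (idx n) else b) (by
        intro i
        cases i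
        · exact std_spec hU b
        · exact Eventually.of_forall fun _ => rfl)
  have hinj : Function.Injective (std hU : M → coordSub U) := (stdEmb hU).injective
  have hfin : ∀ a : M, IsFinite (std hU a) ↔ IsFinite a := fun a =>
    (UDef.isFinite (α := Unit) ()).std hU (fun _ => a)
  have hsub : ∀ a b : M, Sub (std hU a) (std hU b) ↔ Sub a b := fun a b =>
    (UDef.sub (α := Bool) true false).std hU (fun i => if i then a else b)
  refine ⟨coordSub_isZF hM hU, ?_, ?_, ?_, ?_, ?_⟩
  · -- Transfer
    intro D hD hall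
    obtain ⟨φ, hφ⟩ := definable₁_iff hD
    have hP : UDef (α := Set.range (std hU : M → coordSub U)) (fun (K : Type u) _ (w : _ → K) =>
        ∀ x : K, φ.Realize (Sum.elim (fun s => w s) (fun _ => x))) := .all (.formula1 φ _ _)
    have hP' : UDef (α := Option (Set.range (std hU : M → coordSub U)))
        (fun (K : Type u) _ (w : _ → K) =>
        φ.Realize (Sum.elim (fun s => w (some s)) (fun _ => w none))) := .formula1 φ _ _
    have h := (hP.std hU c).2 (by
      intro x
      refine (hP'.std hU (fun o => o.elim x c)).1 ?_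
      have := (hφ (std hU x)).1 (hall _ ⟨x, rfl⟩)
      rw [← hc'] at this
      exact this)
    intro x
    rw [hφ]
    have := h x
    rw [hc'] at this
    exact this
  · -- Nontriviality
    intro w hw
    obtain ⟨w₀, hw₀, rfl⟩ := homega w hw
    obtain ⟨m, hm, hm'⟩ := hU.ideal (fun x y => x ≠ y) (.not (.eq (.var _) (.var _))) w₀ w₀ (by
      -- a finite set of natural numbers is bounded
      intro a ha hsub
      have key : ∀ a : M, IsFinite a → Sub a w₀ → ∃ n : M, Mem n w₀ ∧ Sub a n := by
        refine hM.fin_ind (P := fun a => Sub a w₀ → ∃ n : M, Mem n w₀ ∧ Sub a n)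
          (.imp (.sub (.var _) (.const _)) (.ex (.and (.mem (.var _) (.const _))
            (.sub (.var _) (.var _))))) ?_ ?_
        · intro e he _
          exact ⟨e, hM.empty_mem_omega hw₀ he, fun _ h => h⟩
        · intro a _ ih y b hb hbw
          obtain ⟨n, hn, han⟩ := ih (fun z hz => hbw z ((hb z).2 (Or.inl hz)))
          obtain ⟨y', hy'⟩ := hM.exists_succ y
          have hyw : Mem y w₀ := hbw y ((hb y).2 (Or.inr rfl))
          obtain ⟨k, hk, h1, h2⟩ := hM.nat_max hw₀ hn (hM.succ_mem_omega hw₀ hyw hy')
          refine ⟨k, hk, fun z hz => ?_⟩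
          rcases (hb z).1 hz with h | rfl
          · exact h1 z (han z h)
          · exact h2 z ((hy' z).2 (Or.inr rfl))
      obtain ⟨n, hn, han⟩ := key a ha hsub
      refine ⟨n, hn, fun y hy hyn => ?_⟩
      have := han y hy
      rw [hyn] at this
      exact hM.irrefl _ this)
    obtain ⟨ν, hν⟩ := exists_coord hU m
    refine ⟨ν, ?_, ?_⟩
    · rw [hmem']
      filter_upwards [hν, hm] with y hy hy'
      rw [hy]
      exact hy'
    · rintro _ ⟨n, rfl⟩ hn heq
      have h1 := hm' n ((hmem _ _).1 hn)
      have h2 := std_spec hU n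
      rw [heq] at h2
      obtain ⟨y, h1, h2, h3⟩ := (h1.and (h2.and hν)).exists
      exact h1 (h3.symm.trans h2)
  · -- Standard Part
    intro w hw A _
    obtain ⟨w₀, hw₀, rfl⟩ := homega w hw
    obtain ⟨B, hBw, hB⟩ := hU.standardPart (idx A) w₀ hw₀
    refine ⟨std hU B, ⟨B, rfl⟩, (hsub _ _).2 hBw, ?_⟩
    rintro _ ⟨n, rfl⟩ hn
    have h1 := hB n ((hmem _ _).1 hn)
    rw [hmem]
    have h2 : Mem (std hU n) A ↔ ∀ᶠ y in (U : Filter (ℕ → M)), Mem n (y (idx A)) :=
      (UDef.mem (α := Bool) true false).realize_coordSub hU (fun i => if i then std hU n else A)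
        (fun i y => if i then n else y (idx A)) (by
          intro i
          cases i
          · exact Eventually.of_forall fun _ => rfl
          · exact std_spec hU n)
    rw [h2]
    constructor
    · intro h
      filter_upwards [h1] with y hy
      exact hy.2 h
    · intro h
      obtain ⟨y, hy, hy'⟩ := (h1.and h).exists
      exact hy.1 hy'
  · -- Boundedness
    intro x
    obtain ⟨K, hK⟩ := hU.bounded (idx x)
    exact ⟨std hU K, ⟨K, rfl⟩, (hmem' _ _).2 hK⟩
  · -- Bounded Idealization
    rintro R hR _ ⟨A, rfl⟩ _ ⟨X, rfl⟩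
    obtain ⟨φ, hφ⟩ := definable₂_iff hR
    constructor
    · intro hyp
      obtain ⟨m, hm, hm'⟩ := hU.ideal (fun x y => φ.Realize (Sum.elim c (![x, y])))
        (dfn2_formula φ c) A X (by
          intro a ha haA
          obtain ⟨x, hx, hx'⟩ := hyp (std hU a) ⟨a, rfl⟩ ((hfin a).2 ha) ((hsub _ _).2 haA)
          have hP : UDef (α := Option (Option (Set.range (std hU : M → coordSub U))))
              (fun (K : Type u) _ (w : _ → K) => ∃ x : K, Mem x (w none) ∧
                ∀ y : K, Mem y (w (some none)) →
                  φ.Realize (Sum.elim (fun s => w (some (some s))) (![x, y]))) :=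
            .ex (.and (.mem none (some none)) (.all (.imp (.mem none (some (some (some none))))
              (.formula2 φ _ _ _))))
          refine (hP.std hU (fun o => o.elim X (fun o => o.elim a c))).1 ?_
          refine ⟨x, hx, fun y hy => ?_⟩
          have := (hφ x y).1 (hx' y hy)
          rw [← hc'] at this
          exact this)
      obtain ⟨ξ, hξ⟩ := exists_coord hU m
      refine ⟨ξ, ?_, ?_⟩
      · rw [hmem']
        filter_upwards [hξ, hm] with y hy hy'
        rw [hy]
        exact hy'
      · rintro _ ⟨y, rfl⟩ hy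
        have h1 := hm' y ((hmem _ _).1 hy)
        rw [hφ, ← hc']
        refine (realize_coordSub hU φ _ (fun b x => Sum.elim c (![x m, y]) b) ?_).2 h1
        rintro (s | b)
        · exact std_spec hU (c s)
        · fin_cases b
          · exact hξ
          · exact std_spec hU y
    · rintro ⟨x, hx, hx'⟩ _ ⟨a, rfl⟩ ha haA
      refine ⟨x, hx, fun y hy => ?_⟩
      obtain ⟨z, hz, hz'⟩ := hU.finite (idx y) a ((hfin a).1 ha) ((hmem' _ _).1 hy)
      have hyz : y = std hU z := eq_std_of_eventually hU hz'
      exact hx' y ⟨z, hyz.symm⟩ (haA y hy)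

end

/-- Every countable model of ZF extends to a model of BSPT'. -/
theorem main (M : Type u) [Countable M] [LSet.Structure M] (hM : IsZF M) :
    ∃ (N : Type u) (_ : LSet.Structure N) (j : M ↪[LSet] N), IsBSPT' (Set.range j) := by
  obtain ⟨U, hU⟩ := exists_isGeneric hM
  have := hM.nonempty
  refine ⟨coordSub U, inferInstance, (stdEmb hU).toEmbedding, ?_⟩
  exact isBSPT' hM hU

end Pool.Agent.Work.MP_d5d48f_lc
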