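import Pool.Agent.Work.MP_d5d48f_lc.Generic

/-!
The model of BSPT' obtained from a generic ultrafilter.
-/

universe u v w

namespace Pool.Agent.Work.MP_d5d48f_lc

open FirstOrder FirstOrder.Language Filter

variable {M : Type u} [LSet.Structure M]

/-- the class of the coordinate `i` in the ultrapower -/
def ev (U : Ultrafilter (ℕ → M)) (i : ℕ) : (U : Filter (ℕ → M)).Product (fun _ => M) :=
  ((fun x : ℕ → M => x i) : (ℕ → M) → M)

/-- the classes of the coordinates -/
def coordSub (U : Ultrafilter (ℕ → M)) :
    LSet.Substructure ((U : Filter (ℕ → M)).Product (fun _ => M)) where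
  carrier := Set.range (ev U)
  fun_mem := fun f => Empty.elim f

theorem coordSub_exists (U : Ultrafilter (ℕ → M)) (n : coordSub U) :
    ∃ i : ℕ, ev U i = (n : (U : Filter (ℕ → M)).Product (fun _ => M)) := n.2

/-- an index of an element -/
noncomputable def idx {U : Ultrafilter (ℕ → M)} (n : coordSub U) : ℕ :=
  Classical.choose (coordSub_exists U n)

theorem ev_idx {U : Ultrafilter (ℕ → M)} (n : coordSub U) :
    ev U (idx n) = (n : (U : Filter (ℕ → M)).Product (fun _ => M)) :=
  Classical.choose_spec (coordSub_exists U n)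

theorem coordSub_isElementary [Nonempty M] {U : Ultrafilter (ℕ → M)} (hU : IsGeneric U) :
    (coordSub U).IsElementary := by
  refine Substructure.isElementary_of_exists _ ?_
  intro n φ x a hφ
  induction a using Quotient.inductionOn' with
  | h a =>
  let xs : Fin n → (ℕ → M) → M := fun i y => y (idx (x i))
  -- evaluation in the ultrapower
  have hW : ∀ b : (ℕ → M) → M, φ.Realize (default : Empty → _)
      (Fin.snoc ((↑) ∘ x) (b : (U : Filter (ℕ → M)).Product (fun _ => M)) :
        Fin (n + 1) → (U : Filter (ℕ → M)).Product (fun _ => M)) ↔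
      ∀ᶠ y in (U : Filter (ℕ → M)), φ.Realize (default : Empty → M)
        (Fin.snoc (fun i => xs i y) (b y) : Fin (n + 1) → M) := by
    intro b
    have := Ultraproduct.boundedFormula_realize_cast (M := fun _ : ℕ → M => M) (u := U) φ
      (fun e : Empty => e.elim) (Fin.snoc xs b : Fin (n + 1) → (ℕ → M) → M)
    have h1 : (fun i => ((Fin.snoc xs b : Fin (n + 1) → (ℕ → M) → M) i :
        (U : Filter (ℕ → M)).Product (fun _ => M))) =
        (Fin.snoc ((↑) ∘ x) (b : (U : Filter (ℕ → M)).Product (fun _ => M)) :
        Fin (n + 1) → (U : Filter (ℕ → M)).Product (fun _ => M)) := by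
      funext i
      refine Fin.lastCases ?_ (fun i => ?_) i
      · refine Eq.trans ?_ (Fin.snoc_last
          (α := fun _ => (U : Filter (ℕ → M)).Product (fun _ => M)) _ _).symm
        rw [Fin.snoc_last]
      · refine Eq.trans ?_ (Fin.snoc_castSucc
          (α := fun _ => (U : Filter (ℕ → M)).Product (fun _ => M)) _ _ _).symm
        rw [Fin.snoc_castSucc]
        exact ev_idx (x i)
    have h2 : ∀ y : ℕ → M, (fun i => (Fin.snoc xs b : Fin (n + 1) → (ℕ → M) → M) i y) =
        (Fin.snoc (fun i => xs i y) (b y) : Fin (n + 1) → M) := by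
      intro y
      funext i
      refine Fin.lastCases ?_ (fun i => ?_) i
      · simp
      · simp
    rw [h1] at this
    simp only [h2] at this
    have h3 : (fun e : Empty => ((e.elim : (ℕ → M) → M) :
        (U : Filter (ℕ → M)).Product (fun _ => M))) = default := Subsingleton.elim _ _
    have h4 : ∀ y : ℕ → M, (fun e : Empty => (e.elim : (ℕ → M) → M) y) = default :=
      fun y => Subsingleton.elim _ _
    rw [h3] at this
    simp only [h4] at this
    exact this
  have h := (hW a).1 hφ
  -- the predicate to be witnessed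
  have hQ : Dfn (fun w : Option ℕ → M => φ.Realize (default : Empty → M)
      (Fin.snoc (fun i => xs i (fun i => w (some i))) (w none) : Fin (n + 1) → M)) := by
    have h0 : Dfn (fun w : Fin (n + 1) → M => φ.Realize (default : Empty → M) w) := by
      refine ⟨φ.toFormula.relabel (Sum.elim Empty.elim Sum.inr), fun w => ?_⟩
      rw [Formula.realize_relabel, BoundedFormula.realize_toFormula]
      have h5 : ((Sum.elim id w ∘ Sum.elim Empty.elim Sum.inr) ∘ Sum.inl : Empty → M) = default :=
        Subsingleton.elim _ _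
      rw [h5]
      rfl
    refine h0.subst (fun (w : Option ℕ → M) => (Fin.snoc (fun i => xs i (fun i => w (some i)))
      (w none) : Fin (n + 1) → M)) ?_
    intro i
    refine Fin.lastCases ?_ (fun i => ?_) i
    · simp only [Fin.snoc_last]
      exact .var _
    · simp only [Fin.snoc_castSucc]
      exact .var _
  obtain ⟨m, hm⟩ := hU.witness (fun z y => φ.Realize (default : Empty → M)
    (Fin.snoc (fun i => xs i y) z : Fin (n + 1) → M)) hQ
    (h.mono fun y hy => ⟨a y, hy⟩)
  exact ⟨⟨ev U m, m, rfl⟩, (hW (fun y => y m)).2 hm⟩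

section

variable [Nonempty M] {U : Ultrafilter (ℕ → M)} (hU : IsGeneric U)

include hU

theorem realize_coordSub {α : Type v} (φ : LSet.Formula α) (x : α → coordSub U)
    (g : α → (ℕ → M) → M)
    (hg : ∀ a, ∀ᶠ y in (U : Filter (ℕ → M)), y (idx (x a)) = g a y) :
    φ.Realize x ↔ ∀ᶠ y in (U : Filter (ℕ → M)), φ.Realize (fun a => g a y) := by
  let S : LSet.ElementarySubstructure ((U : Filter (ℕ → M)).Product (fun _ => M)) :=
    ⟨coordSub U, coordSub_isElementary hU⟩
  have h1 : φ.Realize x ↔ φ.Realize (fun a => (x a : (U : Filter (ℕ → M)).Product (fun _ => M))) :=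
    (S.subtype.map_formula φ x).symm
  have h2 : (fun a => (x a : (U : Filter (ℕ → M)).Product (fun _ => M))) =
      fun a => ((g a : (ℕ → M) → M) : (U : Filter (ℕ → M)).Product (fun _ => M)) := by
    funext a
    rw [← ev_idx (x a)]
    exact Quotient.sound' (hg a)
  rw [h1, h2]
  exact Ultraproduct.realize_formula_cast φ g

theorem UDef.realize_coordSub {α : Type v}
    {P : ∀ (K : Type u) [LSet.Structure K], (α → K) → Prop} (hP : UDef P) (x : α → coordSub U)
    (g : α → (ℕ → M) → M)
    (hg : ∀ a, ∀ᶠ y in (U : Filter (ℕ → M)), y (idx (x a)) = g a y) :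
    P (coordSub U) x ↔ ∀ᶠ y in (U : Filter (ℕ → M)), P M (fun a => g a y) := by
  obtain ⟨φ, hφ⟩ := hP
  rw [← hφ, Pool.Agent.Work.MP_d5d48f_lc.realize_coordSub hU φ x g hg]
  simp only [hφ]

/-- what holds for all assignments in `M` holds for all assignments in the extension -/
theorem UDef.transfer {α : Type v}
    {P : ∀ (K : Type u) [LSet.Structure K], (α → K) → Prop} (hP : UDef P)
    (h : ∀ x : α → M, P M x) (x : α → coordSub U) : P (coordSub U) x :=
  (hP.realize_coordSub hU x (fun a y => y (idx (x a))) (fun _ => Eventually.of_forall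
    fun _ => rfl)).2 (Eventually.of_forall fun _ => h _)

theorem exists_std (c : M) :
    ∃ n : coordSub U, ∀ᶠ y in (U : Filter (ℕ → M)), y (idx n) = c := by
  obtain ⟨m, hm⟩ := hU.witness (fun z _ => z = c) (.eq (.var _) (.const _))
    (Eventually.of_forall fun _ => ⟨c, rfl⟩)
  refine ⟨⟨ev U m, m, rfl⟩, ?_⟩
  have h1 : ev U (idx (⟨ev U m, m, rfl⟩ : coordSub U)) = ev U m := ev_idx _
  have h2 : ∀ᶠ y in (U : Filter (ℕ → M)), y (idx (⟨ev U m, m, rfl⟩ : coordSub U)) = y m :=
    Quotient.exact h1
  filter_upwards [h2, hm] with y hy hy'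
  rw [hy, hy']

/-- the element of the extension given by an element of `M` -/
noncomputable def std (c : M) : coordSub U := Classical.choose (exists_std hU c)

theorem std_spec (c : M) : ∀ᶠ y in (U : Filter (ℕ → M)), y (idx (std hU c)) = c :=
  Classical.choose_spec (exists_std hU c)

theorem eq_of_eventually {n : coordSub U} {m : coordSub U}
    (h : ∀ᶠ y in (U : Filter (ℕ → M)), y (idx n) = y (idx m)) : n = m := by
  apply Subtype.ext
  rw [← ev_idx n, ← ev_idx m]
  exact Quotient.sound' h

theorem eq_std_of_eventually {n : coordSub U} {c : M}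
    (h : ∀ᶠ y in (U : Filter (ℕ → M)), y (idx n) = c) : n = std hU c := by
  apply eq_of_eventually hU
  filter_upwards [h, std_spec hU c] with y hy hy'
  rw [hy, hy']

/-- the elementary embedding of `M` -/
noncomputable def stdEmb : M ↪ₑ[LSet] coordSub U where
  toFun := std hU
  map_formula' := by
    intro n φ x
    rw [Pool.Agent.Work.MP_d5d48f_lc.realize_coordSub hU φ (std hU ∘ x) (fun a _ => x a)
      (fun a => std_spec hU (x a))]
    simp

theorem UDef.std {α : Type v}
    {P : ∀ (K : Type u) [LSet.Structure K], (α → K) → Prop} (hP : UDef P) (x : α → M) :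
    P (coordSub U) (fun a => Pool.Agent.Work.MP_d5d48f_lc.std hU (x a)) ↔ P M x := by
  obtain ⟨φ, hφ⟩ := hP
  rw [← hφ, ← hφ]
  exact (stdEmb hU).map_formula φ x

/-- an element of the extension given by a coordinate -/
theorem exists_coord (m : ℕ) :
    ∃ n : coordSub U, ∀ᶠ y in (U : Filter (ℕ → M)), y (idx n) = y m := by
  refine ⟨⟨ev U m, m, rfl⟩, ?_⟩
  have h1 : ev U (idx (⟨ev U m, m, rfl⟩ : coordSub U)) = ev U m := ev_idx _
  exact Quotient.exact h1

end

end Pool.Agent.Work.MP_d5d48f_lc
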