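import Pool.Agent.Work.MP_d5d48f_lc.Calc

/-!
Elementary set theory inside an arbitrary model of ZF.
-/

universe u

namespace Pool.Agent.Work.MP_d5d48f_lc

open FirstOrder FirstOrder.Language

/-- the pair `(x, y)` belongs to `f` -/
def InG {M : Type u} [LSet.Structure M] (f x y : M) : Prop := ∃ p : M, IsOPair p x y ∧ Mem p f

theorem Dfn.inG {M : Type u} [LSet.Structure M] {α : Type*} {f g h : (α → M) → M} (hf : IsT f)
    (hg : IsT g) (hh : IsT h) : Dfn (fun w => InG (f w) (g w) (h w)) := by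
  refine Dfn.subst (P := fun w : Fin 3 → M => InG (w 0) (w 1) (w 2)) ?_
    (fun w i => ![f w, g w, h w] i) (fun i => by fin_cases i <;> simpa)
  unfold InG
  exact .ex (.and (.isOPair (.var _) (.var _) (.var _)) (.mem (.var _) (.var _)))

namespace IsZF

variable {M : Type u} [LSet.Structure M] (hM : IsZF M)

include hM

theorem nonempty : Nonempty M := by
  obtain ⟨w, _⟩ := hM.infinity
  exact ⟨w⟩

theorem ext {x y : M} (h : ∀ z : M, Mem z x ↔ Mem z y) : x = y := hM.extensionality x y h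

theorem sep {P : M → Prop} (hP : Dfn1 P) (a : M) :
    ∃ b : M, ∀ x : M, Mem x b ↔ (Mem x a ∧ P x) :=
  hM.separation _ hP.definable a

theorem repl {R : M → M → Prop} (hR : Dfn2 R) (a : M) (h : ∀ x : M, Mem x a → ∃! y : M, R x y) :
    ∃ b : M, ∀ y : M, Mem y b ↔ ∃ x : M, Mem x a ∧ R x y :=
  hM.replacement _ hR.definable a h

theorem repl' {R : M → M → Prop} (hR : Dfn2 R) (a : M)
    (h : ∀ x : M, Mem x a → ∀ y y' : M, R x y → R x y' → y = y') :
    ∃ b : M, ∀ y : M, Mem y b ↔ ∃ x : M, Mem x a ∧ R x y := by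
  obtain ⟨a', ha'⟩ := hM.sep (P := fun x => ∃ y : M, R x y)
    (.ex (.app2 hR (.var _) (.var _))) a
  obtain ⟨b, hb⟩ := hM.repl hR a' (by
    intro x hx
    obtain ⟨hxa, y, hy⟩ := (ha' x).1 hx
    exact ⟨y, hy, fun y' hy' => h x hxa _ _ hy' hy⟩)
  refine ⟨b, fun y => (hb y).trans ?_⟩
  constructor
  · rintro ⟨x, hx, hxy⟩
    exact ⟨x, ((ha' x).1 hx).1, hxy⟩
  · rintro ⟨x, hx, hxy⟩
    exact ⟨x, (ha' x).2 ⟨hx, y, hxy⟩, hxy⟩

theorem exists_pair (a b : M) : ∃ p : M, IsPair p a b := hM.pairing a b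

theorem irrefl (x : M) : ¬ Mem x x := by
  obtain ⟨p, hp⟩ := hM.exists_pair x x
  obtain ⟨y, hy, hy'⟩ := hM.foundation p ⟨x, (hp x).2 (Or.inl rfl)⟩
  have hyx : y = x := by simpa using (hp y).1 hy
  subst hyx
  exact fun h => hy' y hy h

theorem exists_empty : ∃ e : M, IsEmptySet e := by
  obtain ⟨w, ⟨e, he, _⟩, _⟩ := hM.infinity
  exact ⟨e, he⟩

theorem empty_unique {e e' : M} (h : IsEmptySet e) (h' : IsEmptySet e') : e = e' :=
  hM.ext fun z => ⟨fun hz => absurd hz (h z), fun hz => absurd hz (h' z)⟩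

theorem exists_union2 (a b : M) : ∃ u : M, ∀ z : M, Mem z u ↔ (Mem z a ∨ Mem z b) := by
  obtain ⟨p, hp⟩ := hM.exists_pair a b
  obtain ⟨u, hu⟩ := hM.union p
  refine ⟨u, fun z => (hu z).trans ?_⟩
  constructor
  · rintro ⟨y, hy, hz⟩
    rcases (hp y).1 hy with rfl | rfl
    · exact Or.inl hz
    · exact Or.inr hz
  · rintro (hz | hz)
    · exact ⟨a, (hp a).2 (Or.inl rfl), hz⟩
    · exact ⟨b, (hp b).2 (Or.inr rfl), hz⟩

theorem exists_insert (a y : M) : ∃ u : M, ∀ z : M, Mem z u ↔ (Mem z a ∨ z = y) := by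
  obtain ⟨p, hp⟩ := hM.exists_pair y y
  obtain ⟨u, hu⟩ := hM.exists_union2 a p
  exact ⟨u, fun z => by rw [hu, hp]; simp⟩

theorem exists_succ (x : M) : ∃ y : M, IsSucc x y := hM.exists_insert x x

theorem succ_unique {x y y' : M} (h : IsSucc x y) (h' : IsSucc x y') : y = y' :=
  hM.ext fun z => (h z).trans (h' z).symm

theorem succ_injective {x x' y : M} (h : IsSucc x y) (h' : IsSucc x' y) : x = x' := by
  by_contra hne
  have h1 : Mem x x' := by
    have := (h' x).1 ((h x).2 (Or.inr rfl))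
    rcases this with h2 | h2
    · exact h2
    · exact absurd h2 hne
  have h2 : Mem x' x := by
    have := (h x').1 ((h' x').2 (Or.inr rfl))
    rcases this with h2 | h2
    · exact h2
    · exact absurd h2.symm hne
  obtain ⟨p, hp⟩ := hM.exists_pair x x'
  obtain ⟨z, hz, hz'⟩ := hM.foundation p ⟨x, (hp x).2 (Or.inl rfl)⟩
  rcases (hp z).1 hz with rfl | rfl
  · exact hz' _ ((hp _).2 (Or.inr rfl)) h2
  · exact hz' _ ((hp _).2 (Or.inl rfl)) h1

theorem exists_omega : ∃ w : M, IsOmega w := by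
  obtain ⟨w, hw⟩ := hM.infinity
  obtain ⟨v, hv⟩ := hM.sep (P := fun x => ∀ u : M, IsInductive u → Mem x u)
    (.all (.imp (.isInductive (.var _)) (.mem (.var _) (.var _)))) w
  refine ⟨v, ⟨?_, ?_⟩, ?_⟩
  · obtain ⟨⟨e, he, hew⟩, _⟩ := hw
    refine ⟨e, he, (hv e).2 ⟨hew, ?_⟩⟩
    rintro u ⟨⟨e', he', hu⟩, _⟩
    rwa [hM.empty_unique he he']
  · intro x hx
    obtain ⟨hxw, hx'⟩ := (hv x).1 hx
    obtain ⟨y, hy, hyw⟩ := hw.2 x hxw
    refine ⟨y, hy, (hv y).2 ⟨hyw, ?_⟩⟩
    intro u hu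
    obtain ⟨y', hy', hyu⟩ := hu.2 x (hx' u hu)
    rwa [hM.succ_unique hy hy']
  · intro u hu z hz
    exact ((hv z).1 hz).2 u hu

theorem omega_unique {w w' : M} (h : IsOmega w) (h' : IsOmega w') : w = w' :=
  hM.ext fun z => ⟨fun hz => h.2 w' h'.1 z hz, fun hz => h'.2 w h.1 z hz⟩

theorem empty_mem_omega {w e : M} (hw : IsOmega w) (he : IsEmptySet e) : Mem e w := by
  obtain ⟨⟨e', he', h⟩, _⟩ := hw.1
  rwa [hM.empty_unique he he']

theorem succ_mem_omega {w n m : M} (hw : IsOmega w) (hn : Mem n w) (h : IsSucc n m) :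
    Mem m w := by
  obtain ⟨m', hm', h'⟩ := hw.1.2 n hn
  rwa [hM.succ_unique h hm']

theorem omega_ind {w : M} (hw : IsOmega w) {P : M → Prop} (hP : Dfn1 P)
    (h0 : ∀ e : M, IsEmptySet e → P e)
    (hs : ∀ n : M, Mem n w → P n → ∀ m : M, IsSucc n m → P m) : ∀ n : M, Mem n w → P n := by
  obtain ⟨v, hv⟩ := hM.sep hP w
  have hvi : IsInductive v := by
    refine ⟨?_, ?_⟩
    · obtain ⟨e, he⟩ := hM.exists_empty
      exact ⟨e, he, (hv e).2 ⟨hM.empty_mem_omega hw he, h0 e he⟩⟩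
    · intro x hx
      obtain ⟨hxw, hx'⟩ := (hv x).1 hx
      obtain ⟨y, hy⟩ := hM.exists_succ x
      exact ⟨y, hy, (hv y).2 ⟨hM.succ_mem_omega hw hxw hy, hs x hxw hx' y hy⟩⟩
  intro n hn
  exact ((hv n).1 (hw.2 v hvi n hn)).2

theorem nat_trans {w : M} (hw : IsOmega w) :
    ∀ n : M, Mem n w → ∀ m : M, Mem m n → Mem m w ∧ Sub m n := by
  refine hM.omega_ind hw (P := fun n => ∀ m : M, Mem m n → Mem m w ∧ Sub m n)
    (.all (.imp (.mem (.var _) (.var _)) (.and (.mem (.var _) (.const _))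
      (.sub (.var _) (.var _))))) ?_ ?_
  · intro e he m hm
    exact absurd hm (he m)
  · intro n hn ih k hk m hm
    rcases (hk m).1 hm with hm | rfl
    · refine ⟨(ih m hm).1, fun z hz => (hk z).2 (Or.inl ((ih m hm).2 z hz))⟩
    · exact ⟨hn, fun z hz => (hk z).2 (Or.inl hz)⟩

theorem nat_mem_trans {w : M} (hw : IsOmega w) {n m k : M} (hn : Mem n w) (h1 : Mem k m)
    (h2 : Mem m n) : Mem k n :=
  (hM.nat_trans hw n hn m h2).2 k h1

theorem nat_succ_le {w : M} (hw : IsOmega w) {m m' : M} (hm' : IsSucc m m') :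
    ∀ n : M, Mem n w → Mem m n → (Mem m' n ∨ m' = n) := by
  refine hM.omega_ind hw (P := fun n => Mem m n → (Mem m' n ∨ m' = n))
    (.imp (.mem (.const _) (.var _)) (.or (.mem (.const _) (.var _)) (.eq (.const _) (.var _))))
    ?_ ?_
  · intro e he h
    exact absurd h (he m)
  · intro n hn ih k hk h
    rcases (hk m).1 h with h | rfl
    · rcases ih h with h | rfl
      · exact Or.inl ((hk _).2 (Or.inl h))
      · exact Or.inl ((hk _).2 (Or.inr rfl))
    · exact Or.inr (hM.succ_unique hm' hk)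

theorem nat_tri {w : M} (hw : IsOmega w) :
    ∀ m : M, Mem m w → ∀ n : M, Mem n w → (Mem n m ∨ n = m ∨ Mem m n) := by
  refine hM.omega_ind hw (P := fun m => ∀ n : M, Mem n w → (Mem n m ∨ n = m ∨ Mem m n))
    (.all (.imp (.mem (.var _) (.const _)) (.or (.mem (.var _) (.var _))
      (.or (.eq (.var _) (.var _)) (.mem (.var _) (.var _)))))) ?_ ?_
  · intro e he
    refine hM.omega_ind hw (P := fun n => (Mem n e ∨ n = e ∨ Mem e n))
      (.or (.mem (.var _) (.const _))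
      (.or (.eq (.var _) (.const _)) (.mem (.const _) (.var _)))) ?_ ?_
    · intro e' he'
      exact Or.inr (Or.inl (hM.empty_unique he' he))
    · intro n hn ih k hk
      rcases ih with h | rfl | h
      · exact absurd h (he n)
      · exact Or.inr (Or.inr ((hk _).2 (Or.inr rfl)))
      · exact Or.inr (Or.inr ((hk _).2 (Or.inl h)))
  · intro m hm ih k hk n hn
    rcases ih n hn with h | rfl | h
    · exact Or.inl ((hk _).2 (Or.inl h))
    · exact Or.inl ((hk _).2 (Or.inr rfl))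
    · rcases hM.nat_succ_le hw hk n hn h with h | rfl
      · exact Or.inr (Or.inr h)
      · exact Or.inr (Or.inl rfl)

/-- the larger of two natural numbers -/
theorem nat_max {w : M} (hw : IsOmega w) {m n : M} (hm : Mem m w) (hn : Mem n w) :
    ∃ k : M, Mem k w ∧ Sub m k ∧ Sub n k := by
  rcases hM.nat_tri hw m hm n hn with h | rfl | h
  · exact ⟨m, hm, fun _ h => h, (hM.nat_trans hw m hm n h).2⟩
  · exact ⟨n, hn, fun _ h => h, fun _ h => h⟩
  · exact ⟨n, hn, (hM.nat_trans hw n hn m h).2, fun _ h => h⟩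

/-! ### ordered pairs -/

theorem pair_eq {p a b : M} (h : IsPair p a b) {q : M} (h' : IsPair q a b) : p = q :=
  hM.ext fun z => (h z).trans (h' z).symm

omit hM in
theorem pair_inj {p a b c d : M} (h : IsPair p a b) (h' : IsPair p c d) :
    (a = c ∧ b = d) ∨ (a = d ∧ b = c) := by
  have ha := (h' a).1 ((h a).2 (Or.inl rfl))
  have hb := (h' b).1 ((h b).2 (Or.inr rfl))
  have hc := (h c).1 ((h' c).2 (Or.inl rfl))
  have hd := (h d).1 ((h' d).2 (Or.inr rfl))
  rcases ha with rfl | rfl <;> rcases hb with rfl | rfl <;> simp_all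

theorem exists_opair (a b : M) : ∃ p : M, IsOPair p a b := by
  obtain ⟨s, hs⟩ := hM.exists_pair a a
  obtain ⟨t, ht⟩ := hM.exists_pair a b
  obtain ⟨p, hp⟩ := hM.exists_pair s t
  exact ⟨p, s, t, hs, ht, hp⟩

omit hM in
theorem opair_inj {p a b c d : M} (h : IsOPair p a b) (h' : IsOPair p c d) :
    a = c ∧ b = d := by
  obtain ⟨s, t, hs, ht, hp⟩ := h
  obtain ⟨s', t', hs', ht', hp'⟩ := h'
  rcases pair_inj hp hp' with ⟨h1, h2⟩ | ⟨h1, h2⟩
  · subst h1
    subst h2
    have hac : a = c := by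
      rcases pair_inj hs hs' with ⟨h, _⟩ | ⟨h, _⟩ <;> exact h
    subst hac
    refine ⟨rfl, ?_⟩
    rcases pair_inj ht ht' with ⟨_, h⟩ | ⟨h1, h2⟩
    · exact h
    · rw [h2, h1]
  · subst h1
    subst h2
    -- {a} = {c, d}, {a, b} = {c}
    have h1 := pair_inj hs ht'
    have h2 := pair_inj ht hs'
    have hac : a = c := by
      rcases h1 with ⟨h, _⟩ | ⟨_, h⟩ <;> exact h
    have had : a = d := by
      rcases h1 with ⟨_, h⟩ | ⟨h, _⟩ <;> exact h
    have hbc : b = c := by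
      rcases h2 with ⟨_, h⟩ | ⟨_, h⟩ <;> exact h
    exact ⟨hac, hbc.trans (hac.symm.trans had)⟩

theorem opair_unique {p q a b : M} (h : IsOPair p a b) (h' : IsOPair q a b) : p = q := by
  obtain ⟨s, t, hs, ht, hp⟩ := h
  obtain ⟨s', t', hs', ht', hp'⟩ := h'
  have h1 := hM.pair_eq hs hs'
  have h2 := hM.pair_eq ht ht'
  subst h1
  subst h2
  exact hM.pair_eq hp hp'

/-- adding a pair to a relation -/
theorem exists_addPair (f x y : M) : ∃ g : M, (∀ q : M, Mem q g ↔ (Mem q f ∨ IsOPair q x y)) ∧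
    ∀ a b : M, InG g a b ↔ (InG f a b ∨ (a = x ∧ b = y)) := by
  obtain ⟨p, hp⟩ := hM.exists_opair x y
  obtain ⟨g, hg⟩ := hM.exists_insert f p
  have hg' : ∀ q : M, Mem q g ↔ (Mem q f ∨ IsOPair q x y) := by
    intro q
    rw [hg]
    constructor
    · rintro (h | rfl)
      · exact Or.inl h
      · exact Or.inr hp
    · rintro (h | h)
      · exact Or.inl h
      · exact Or.inr (hM.opair_unique h hp)
  refine ⟨g, hg', fun a b => ?_⟩
  constructor
  · rintro ⟨q, hq, hqg⟩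
    rcases (hg' q).1 hqg with h | h
    · exact Or.inl ⟨q, hq, h⟩
    · exact Or.inr (opair_inj hq h)
  · rintro (⟨q, hq, hqf⟩ | ⟨rfl, rfl⟩)
    · exact ⟨q, hq, (hg' q).2 (Or.inl hqf)⟩
    · exact ⟨p, hp, (hg' p).2 (Or.inr hp)⟩

/-- restricting a relation -/
theorem exists_restrict {Q : M → M → Prop} (hQ : Dfn2 Q) (f : M) :
    ∃ g : M, (∀ q : M, Mem q g → Mem q f) ∧ ∀ a b : M, InG g a b ↔ (InG f a b ∧ Q a b) := by
  obtain ⟨g, hg⟩ := hM.sep (P := fun q => ∃ a b : M, IsOPair q a b ∧ Q a b)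
    (.ex (.ex (.and (.isOPair (.var _) (.var _) (.var _)) (.app2 hQ (.var _) (.var _))))) f
  refine ⟨g, fun q hq => ((hg q).1 hq).1, fun a b => ?_⟩
  constructor
  · rintro ⟨q, hq, hqg⟩
    obtain ⟨hqf, a', b', hab, hQab⟩ := (hg q).1 hqg
    obtain ⟨rfl, rfl⟩ := opair_inj hq hab
    exact ⟨⟨q, hq, hqf⟩, hQab⟩
  · rintro ⟨⟨q, hq, hqf⟩, hQab⟩
    exact ⟨q, hq, (hg q).2 ⟨hqf, a, b, hq, hQab⟩⟩

/-! ### finite sets -/

theorem fin_empty {e : M} (he : IsEmptySet e) : IsFinite e := by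
  obtain ⟨w, hw⟩ := hM.exists_omega
  refine ⟨w, e, e, hw, hM.empty_mem_omega hw he, ?_, ?_, ?_⟩
  · intro p hp
    exact absurd hp (he p)
  · intro x hx
    exact absurd hx (he x)
  · intro x hx
    exact absurd hx (he x)

theorem fin_insert {a b y : M} (ha : IsFinite a) (hb : ∀ z : M, Mem z b ↔ (Mem z a ∨ z = y)) :
    IsFinite b := by
  by_cases hy : Mem y a
  · have : b = a := hM.ext fun z => by
      rw [hb]
      constructor
      · rintro (h | rfl)
        · exact h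
        · exact hy
      · exact Or.inl
    rwa [this]
  obtain ⟨w, n, f, hw, hn, h1, h2, h3⟩ := ha
  obtain ⟨m, hm⟩ := hM.exists_succ n
  obtain ⟨g, hg, hg'⟩ := hM.exists_addPair f n y
  -- elements of `f` are in `n × a`
  have hf : ∀ x z : M, InG f x z → Mem x n ∧ Mem z a := by
    rintro x z ⟨p, hp, hpf⟩
    obtain ⟨x', z', hx', hz', hp'⟩ := h1 p hpf
    obtain ⟨rfl, rfl⟩ := opair_inj hp hp'
    exact ⟨hx', hz'⟩
  refine ⟨w, m, g, hw, hM.succ_mem_omega hw hn hm, ?_, ?_, ?_⟩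
  · intro p hp
    rcases (hg p).1 hp with h | h
    · obtain ⟨x, z, hx, hz, hp'⟩ := h1 p h
      exact ⟨x, z, (hm x).2 (Or.inl hx), (hb z).2 (Or.inl hz), hp'⟩
    · exact ⟨n, y, (hm n).2 (Or.inr rfl), (hb y).2 (Or.inr rfl), h⟩
  · intro x hx
    rcases (hm x).1 hx with hx | rfl
    · obtain ⟨z, hz, hz'⟩ := h2 x hx
      refine ⟨z, (hg' x z).2 (Or.inl hz), ?_⟩
      intro z' hz''
      rcases (hg' x z').1 hz'' with h | ⟨rfl, rfl⟩
      · exact hz' z' h
      · exact absurd hx (hM.irrefl _)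
    · refine ⟨y, (hg' x y).2 (Or.inr ⟨rfl, rfl⟩), ?_⟩
      intro z' hz''
      rcases (hg' x z').1 hz'' with h | ⟨_, rfl⟩
      · exact absurd (hf _ _ h).1 (hM.irrefl _)
      · rfl
  · intro z hz
    rcases (hb z).1 hz with hz | rfl
    · obtain ⟨x, hx, hx'⟩ := h3 z hz
      refine ⟨x, (hg' x z).2 (Or.inl hx), ?_⟩
      intro x' hx''
      rcases (hg' x' z).1 hx'' with h | ⟨rfl, rfl⟩
      · exact hx' x' h
      · exact absurd hz hy
    · refine ⟨n, (hg' n z).2 (Or.inr ⟨rfl, rfl⟩), ?_⟩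
      intro x' hx''
      rcases (hg' x' z).1 hx'' with h | ⟨rfl, _⟩
      · exact absurd (hf _ _ h).2 hy
      · rfl

theorem fin_ind {P : M → Prop} (hP : Dfn1 P) (h0 : ∀ e : M, IsEmptySet e → P e)
    (hs : ∀ a : M, IsFinite a → P a → ∀ y b : M, (∀ z : M, Mem z b ↔ (Mem z a ∨ z = y)) → P b) :
    ∀ a : M, IsFinite a → P a := by
  obtain ⟨w, hw⟩ := hM.exists_omega
  have key : ∀ n : M, Mem n w → ∀ a f : M, IsBijection f n a → P a := by
    refine hM.omega_ind hw (P := fun n => ∀ a f : M, IsBijection f n a → P a)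
      (.all (.all (.imp (.isBijection (.var _) (.var _) (.var _)) (.app1 hP (.var _))))) ?_ ?_
    · rintro e he a f ⟨_, _, h3⟩
      refine h0 a fun z hz => ?_
      obtain ⟨x, ⟨p, hp, hpf⟩, _⟩ := h3 z hz
      obtain ⟨x', y', hx', _, _⟩ := (‹∀ p : M, Mem p f → _› : _) p hpf
      exact he _ hx'
    · rintro n hn ih m hm a f ⟨h1, h2, h3⟩
      have hf : ∀ x z : M, InG f x z → Mem x m ∧ Mem z a := by
        rintro x z ⟨p, hp, hpf⟩
        obtain ⟨x', z', hx', hz', hp'⟩ := h1 p hpf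
        obtain ⟨rfl, rfl⟩ := opair_inj hp hp'
        exact ⟨hx', hz'⟩
      obtain ⟨y, hy, hy'⟩ := h2 n ((hm n).2 (Or.inr rfl))
      have hya : Mem y a := (hf _ _ hy).2
      obtain ⟨a', ha'⟩ := hM.sep (P := fun z => z ≠ y) (.not (.eq (.var _) (.const _))) a
      obtain ⟨g, hg, hg'⟩ := hM.exists_restrict (Q := fun x _ => x ≠ n)
        (.not (.eq (.var _) (.const _))) f
      have hbij : IsBijection g n a' := by
        refine ⟨?_, ?_, ?_⟩
        · intro p hp
          obtain ⟨x, z, hx, hz, hp'⟩ := h1 p (hg p hp)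
          obtain ⟨hxz, hxn⟩ := (hg' x z).1 ⟨p, hp', hp⟩
          have hxn' : Mem x n := by
            rcases (hm x).1 hx with h | h
            · exact h
            · exact absurd h hxn
          refine ⟨x, z, hxn', (ha' z).2 ⟨hz, ?_⟩, hp'⟩
          rintro rfl
          obtain ⟨x₀, _, hx₀⟩ := h3 z hz
          exact hxn ((hx₀ x hxz).trans (hx₀ n hy).symm)
        · intro x hx
          have hxn : x ≠ n := by
            rintro rfl
            exact hM.irrefl _ hx
          obtain ⟨z, hz, hz'⟩ := h2 x ((hm x).2 (Or.inl hx))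
          exact ⟨z, (hg' x z).2 ⟨hz, hxn⟩, fun z' hz'' => hz' z' ((hg' x z').1 hz'').1⟩
        · intro z hz
          obtain ⟨hza, hzy⟩ := (ha' z).1 hz
          obtain ⟨x, hx, hx'⟩ := h3 z hza
          refine ⟨x, (hg' x z).2 ⟨hx, ?_⟩, fun x' hx'' => hx' x' ((hg' x' z).1 hx'').1⟩
          rintro rfl
          exact hzy (hy' z hx)
      have hPa' : P a' := ih a' g hbij
      refine hs a' ⟨w, n, g, hw, hn, hbij⟩ hPa' y a (fun z => ?_)
      rw [ha']
      constructor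
      · intro hz
        by_cases hzy : z = y
        · exact Or.inr hzy
        · exact Or.inl ⟨hz, hzy⟩
      · rintro (⟨h, _⟩ | rfl)
        · exact h
        · exact hya
  rintro a ⟨w', n, f, hw', hn, hf⟩
  obtain rfl := hM.omega_unique hw hw'
  exact key n hn a f hf

theorem fin_union {a b : M} (ha : IsFinite a) (hb : IsFinite b) :
    ∀ c : M, (∀ z : M, Mem z c ↔ (Mem z a ∨ Mem z b)) → IsFinite c := by
  refine hM.fin_ind (P := fun a => ∀ c : M, (∀ z : M, Mem z c ↔ (Mem z a ∨ Mem z b)) →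
    IsFinite c) (.all (.imp (.all (.iff (.mem (.var _) (.var _)) (.or (.mem (.var _) (.var _))
      (.mem (.var _) (.const _))))) (.isFinite (.var _)))) ?_ ?_ a ha
  · intro e he c hc
    have : c = b := hM.ext fun z => by
      rw [hc]
      constructor
      · rintro (h | h)
        · exact absurd h (he z)
        · exact h
      · exact Or.inr
    rwa [this]
  · intro a ha ih y a' ha' c hc
    obtain ⟨d, hd⟩ := hM.exists_union2 a b
    refine hM.fin_insert (ih d hd) (b := c) (y := y) (fun z => ?_)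
    rw [hc, ha', hd]
    tauto

end IsZF

end Pool.Agent.Work.MP_d5d48f_lc
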